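import Pool.Agent.W810.LP.Win

set_option autoImplicit false

namespace Pool.Agent.W810.LP

open Filter Topology Pool.Agent.Helper434.PSCplx Pool.Agent.H695R3.ST

lemma pow_adj (q : ℝ) (hq : 1 ≤ q) (e e' : ℕ) (h1 : e ≤ e' + 1) (h2 : e' ≤ e + 1) :
    |q ^ e - q ^ e'| ≤ (q - 1) * q ^ e' := by
  have hq0 : 0 < q := by linarith
  have hp : 0 < q ^ e := by positivity
  have hp' : 0 < q ^ e' := by positivity
  rcases lt_trichotomy e e' with h | h | h
  · obtain rfl : e' = e + 1 := by omega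
    rw [pow_succ, abs_le]
    constructor <;> nlinarith [mul_nonneg hp.le (sub_nonneg.2 hq)]
  · subst h
    rw [sub_self, abs_zero]
    exact mul_nonneg (by linarith) hp.le
  · obtain rfl : e = e' + 1 := by omega
    rw [pow_succ, abs_le]
    constructor <;> nlinarith [mul_nonneg hp'.le (sub_nonneg.2 hq)]

/-- the weight of a barrier: `q ^ (distance to the boundary)` inside, `0` outside -/
noncomputable def wt (q : ℝ) (L M : ℕ) (s n : ℤ) : ℝ :=
  if ((n - s) % M).toNat < L then q ^ min ((n - s) % M).toNat (L - 1 - ((n - s) % M).toNat) else 0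

section
variable {q : ℝ} {L M : ℕ} {s : ℤ}

lemma wt_nonneg (hq : 1 ≤ q) (n : ℤ) : 0 ≤ wt q L M s n := by
  unfold wt
  split_ifs
  · positivity
  · exact le_rfl

lemma wt_le (hq : 1 ≤ q) (n : ℤ) : wt q L M s n ≤ q ^ L := by
  unfold wt
  split_ifs with h
  · apply pow_le_pow_right₀ hq
    omega
  · positivity

lemma wt_adj (hq : 1 ≤ q) (hL : 0 < L) (hM : L < M) (n : ℤ) :
    |wt q L M s (n + 1) - wt q L M s n| ≤ (q - 1) * wt q L M s (n + 1) + 1 ∧
    |wt q L M s n - wt q L M s (n + 1)| ≤ (q - 1) * wt q L M s n + 1 := by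
  have hM0 : (0 : ℤ) < M := by omega
  obtain ⟨r, hr⟩ : ∃ r : ℕ, (r : ℤ) = (n - s) % M :=
    ⟨((n - s) % M).toNat, Int.toNat_of_nonneg (Int.emod_nonneg _ hM0.ne')⟩
  have hrM : r < M := by
    have := Int.emod_lt_of_pos (n - s) hM0
    omega
  have hr1 : ((n - s) % M).toNat = r := by omega
  have hnext : (n + 1 - s) % M = if r + 1 < M then ((r + 1 : ℕ) : ℤ) else 0 := by
    have e : (n + 1 - s) % M = ((n - s) % M + 1) % M := by
      rw [show n + 1 - s = (n - s) + 1 by ring, Int.emod_add_emod]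
    rw [e, ← hr]
    split_ifs with h
    · rw [Int.emod_eq_of_lt (by omega) (by omega)]
      push_cast; ring
    · have : (r : ℤ) + 1 = M := by omega
      rw [this, Int.emod_self]
  by_cases c1 : r + 1 < M
  · rw [if_pos c1] at hnext
    have hr2 : ((n + 1 - s) % M).toNat = r + 1 := by omega
    unfold wt
    rw [hr1, hr2]
    by_cases c2 : r + 1 < L
    · have c3 : r < L := by omega
      rw [if_pos c2, if_pos c3]
      have h1 := pow_adj q hq (min (r + 1) (L - 1 - (r + 1))) (min r (L - 1 - r)) (by omega) (by omega)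
      have h2 := pow_adj q hq (min r (L - 1 - r)) (min (r + 1) (L - 1 - (r + 1))) (by omega) (by omega)
      constructor
      · rw [abs_sub_comm] at h2; linarith
      · rw [abs_sub_comm] at h1; linarith
    · by_cases c3 : r < L
      · have e : min r (L - 1 - r) = 0 := by omega
        rw [if_neg c2, if_pos c3, e, pow_zero]
        constructor <;> norm_num <;> linarith
      · rw [if_neg c2, if_neg c3]
        norm_num
  · rw [if_neg c1] at hnext
    have hr2 : ((n + 1 - s) % M).toNat = 0 := by omega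
    unfold wt
    rw [hr1, hr2]
    have c3 : ¬ r < L := by omega
    rw [if_pos hL, if_neg c3]
    have e : min 0 (L - 1 - 0) = 0 := by omega
    rw [e, pow_zero]
    constructor <;> norm_num <;> linarith

lemma wt_centre (hq : 1 ≤ q) (hL : 2 ≤ L) (hM : L < M) (j : ℤ) :
    q ^ (L / 2 - 1) ≤ wt q L M s (s + ((L - 1) / 2 : ℕ) + M * j) ∧
    q ^ (L / 2 - 1) ≤ wt q L M s (s + ((L - 1) / 2 : ℕ) + 1 + M * j) := by
  have h1 : (s + ((L - 1) / 2 : ℕ) + M * j - s) % (M : ℤ) = ((L - 1) / 2 : ℕ) := by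
    rw [show s + (((L - 1) / 2 : ℕ) : ℤ) + M * j - s = (((L - 1) / 2 : ℕ) : ℤ) + M * j by ring,
      Int.add_mul_emod_self_left, Int.emod_eq_of_lt (by omega) (by omega)]
  have h2 : (s + ((L - 1) / 2 : ℕ) + 1 + M * j - s) % (M : ℤ) = ((L - 1) / 2 + 1 : ℕ) := by
    rw [show s + (((L - 1) / 2 : ℕ) : ℤ) + 1 + M * j - s = (((L - 1) / 2 + 1 : ℕ) : ℤ) + M * j by
      push_cast; ring,
      Int.add_mul_emod_self_left, Int.emod_eq_of_lt (by omega) (by omega)]
  unfold wt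
  rw [h1, h2, Int.toNat_natCast, Int.toNat_natCast]
  constructor
  · rw [if_pos (by omega)]
    exact pow_le_pow_right₀ hq (by omega)
  · rw [if_pos (by omega)]
    exact pow_le_pow_right₀ hq (by omega)

end

/-- one type of barrier -/
theorem barrier_one (V V' : ℤ → ℝ) (M L : ℕ) (s : ℤ) (hL : 2 ≤ L) (hM : M = 2 * L)
    (hV' : ∀ n : ℤ, V' (n + M) = V' n) : ∃ C : Finset ℝ, C.card ≤ M ∧
    ∀ (H H' : L2 →L[ℂ] L2), IsSchr V H → IsSchr V' H' → IsSelfAdjoint H → IsSelfAdjoint H' →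
    ∀ (E F d : ℝ), 0 < d → d ≤ 1 → (∀ n, ((n - s) % M).toNat < L → V' n - E = V n - F) →
    (∀ E' ∈ spectrum ℝ H, d ≤ |F - E'|) → E ∈ spectrum ℝ H' →
    ∃ c ∈ C, |c - E| ≤ 11 / (d * (1 + d / 5) ^ (L / 2 - 1)) := by
  obtain ⟨C, hC1, hC2⟩ := box_near V' (s + ((L - 1) / 2 : ℕ) + 1) M (by omega)
  refine ⟨C, hC1, ?_⟩
  intro H H' hH hH' hs hs' E F d hd hd1 hsupp hdist hE
  set q : ℝ := 1 + d / 5 with hq
  have hq1 : 1 ≤ q := by rw [hq]; linarith
  set R : ℝ := q ^ (L / 2 - 1) with hR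
  have hR0 : 0 < R := by positivity
  have hR1 : R ≤ q ^ L := pow_le_pow_right₀ hq1 (by omega)
  have hq0 : 0 < q ^ L := by positivity
  obtain ⟨ψ, hψ0, hψ⟩ := weyl_fwd hs' hE (η := 1 / (2 * q ^ L)) (by positivity)
  have hb : ∀ m : ℤ, |wt q L M s m| ≤ q ^ L := by
    intro m
    rw [abs_of_nonneg (wt_nonneg hq1 m)]
    exact wt_le hq1 m
  obtain ⟨φ, hφ⟩ : ∃ φ : L2, ∀ n, φ n = ((wt q L M s n : ℝ) : ℂ) * ψ n :=
    ⟨MM (wt q L M s) hb ψ, fun n => MM_apply _ hb ψ n⟩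
  have hsupp' : ∀ n, wt q L M s n ≠ 0 → V' n - E = V n - F := by
    intro n hn
    apply hsupp
    by_contra h
    apply hn
    unfold wt
    rw [if_neg h]
  have hadj1 : ∀ n, |wt q L M s (n + 1) - wt q L M s n| ≤ (q - 1) * wt q L M s (n + 1) + 1 :=
    fun n => (wt_adj hq1 (by omega) (by omega) n).1
  have hadj2 : ∀ n, |wt q L M s (n - 1) - wt q L M s n| ≤ (q - 1) * wt q L M s (n - 1) + 1 := by
    intro n
    have h2 := (wt_adj (q := q) (L := L) (M := M) (s := s) hq1 (by omega) (by omega) (n - 1)).2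
    rwa [sub_add_cancel] at h2
  have ht := tunnel hH hH' E F d (q - 1) (q ^ L) (1 / (2 * q ^ L)) (wt q L M s) hd
    (fun φ => gap_of_dist hs hdist φ) (wt_nonneg hq1) (wt_le hq1) hsupp' hadj1 hadj2
    (by linarith) (by rw [hq]; linarith) ψ φ hψ (by positivity)
      (by apply le_of_eq; field_simp) hφ
  have hφn : ∀ m, ‖φ m‖ = wt q L M s m * ‖ψ m‖ := by
    intro m
    rw [hφ, norm_mul, Complex.norm_real, Real.norm_of_nonneg (wt_nonneg hq1 m)]
  have hψn : 0 < ‖ψ‖ := norm_pos_iff.2 hψ0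
  refine window hH' M (by omega) hV' (s + ((L - 1) / 2 : ℕ) + 1) C hC2 E _ R (by positivity) hR0
    ψ φ ?_ ?_ ?_
  · intro j
    rw [hφn]
    exact mul_le_mul_of_nonneg_right (wt_centre hq1 hL (by omega) j).2 (norm_nonneg _)
  · intro j
    rw [hφn, add_sub_cancel_right]
    exact mul_le_mul_of_nonneg_right (wt_centre hq1 hL (by omega) j).1 (norm_nonneg _)
  · have h1 : R * ‖H' ψ - (E : ℂ) • ψ‖ ≤ 1 / 2 * ‖ψ‖ := by
      calc R * ‖H' ψ - (E : ℂ) • ψ‖ ≤ q ^ L * (1 / (2 * q ^ L) * ‖ψ‖) := by gcongr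
        _ = 1 / 2 * ‖ψ‖ := by field_simp
    have h2 := pow_le_pow_left₀ (by positivity) h1 2
    have h3 : (11 / (d * R)) ^ 2 * (R ^ 2 * ‖ψ‖ ^ 2) = 121 * ‖ψ‖ ^ 2 / d ^ 2 := by
      field_simp
      norm_num
    rw [h3, lt_div_iff₀ (by positivity)]
    have h4 : 0 < ‖ψ‖ ^ 2 := by positivity
    have h5 : d ^ 2 ≤ 1 := by nlinarith
    nlinarith

end Pool.Agent.W810.LP
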