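import Mathlib

set_option autoImplicit false

namespace Pool.Agent.W810.LP

open Matrix

theorem near_eig {X : Type*} [NormedAddCommGroup X] [InnerProductSpace ℂ X]
    [FiniteDimensional ℂ X] (T : X →ₗ[ℂ] X) (hT : T.IsSymmetric) {m : ℕ}
    (hm : Module.finrank ℂ X = m) (E δ : ℝ) (x : X) (hx : x ≠ 0)
    (h : ‖T x - (E : ℂ) • x‖ ≤ δ * ‖x‖) : ∃ i : Fin m, |hT.eigenvalues hm i - E| ≤ δ := by
  set b := hT.eigenvectorBasis hm with hb
  by_contra hcon
  push Not at hcon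
  have hxpos : 0 < ‖x‖ := norm_pos_iff.mpr hx
  have hδ : 0 ≤ δ := by
    by_contra hneg
    have : δ * ‖x‖ < 0 := mul_neg_of_neg_of_pos (not_le.mp hneg) hxpos
    linarith [norm_nonneg (T x - (E : ℂ) • x)]
  have hinner : ∀ i, inner ℂ (b i) (T x - (E : ℂ) • x) =
      ((hT.eigenvalues hm i - E : ℝ) : ℂ) * inner ℂ (b i) x := by
    intro i
    rw [inner_sub_right, ← hT (b i) x]
    have h1 : T (b i) = (hT.eigenvalues hm i : ℂ) • b i := hT.apply_eigenvectorBasis hm i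
    rw [h1, inner_smul_left, inner_smul_right, Complex.conj_ofReal]
    push_cast
    ring
  have hn : ∀ i, ‖inner ℂ (b i) (T x - (E : ℂ) • x)‖ ^ 2 =
      |hT.eigenvalues hm i - E| ^ 2 * ‖inner ℂ (b i) x‖ ^ 2 := by
    intro i
    rw [hinner, norm_mul, mul_pow, Complex.norm_real, Real.norm_eq_abs]
  have hs1 := b.sum_sq_norm_inner_right (T x - (E : ℂ) • x)
  have hs2 := b.sum_sq_norm_inner_right x
  have hlt : δ ^ 2 * ‖x‖ ^ 2 < ‖T x - (E : ℂ) • x‖ ^ 2 := by
    rw [← hs1, ← hs2, Finset.mul_sum]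
    have hle : ∀ i ∈ Finset.univ, δ ^ 2 * ‖inner ℂ (b i) x‖ ^ 2 ≤
        ‖inner ℂ (b i) (T x - (E : ℂ) • x)‖ ^ 2 := by
      intro i _
      rw [hn]
      apply mul_le_mul_of_nonneg_right _ (by positivity)
      exact pow_le_pow_left₀ hδ (hcon i).le 2
    apply Finset.sum_lt_sum hle
    by_contra hall
    push Not at hall
    have h0 : ∀ i, ‖inner ℂ (b i) x‖ ^ 2 = 0 := by
      intro i
      by_contra hne
      have hpos : 0 < ‖inner ℂ (b i) x‖ ^ 2 := lt_of_le_of_ne (by positivity) (Ne.symm hne)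
      have h1 := hall i (Finset.mem_univ i)
      rw [hn] at h1
      have h2 : δ ^ 2 < |hT.eigenvalues hm i - E| ^ 2 := pow_lt_pow_left₀ (hcon i) hδ (by norm_num)
      nlinarith
    have : ‖x‖ ^ 2 = 0 := by rw [← hs2]; exact Finset.sum_eq_zero fun i _ => h0 i
    nlinarith
  have h2 : ‖T x - (E : ℂ) • x‖ ^ 2 ≤ (δ * ‖x‖) ^ 2 := pow_le_pow_left₀ (norm_nonneg _) h 2
  nlinarith

/-- the Dirichlet restriction of the Schroedinger operator to `[a, a + M)` -/
noncomputable def boxM (V : ℤ → ℝ) (a : ℤ) (M : ℕ) : Matrix (Fin M) (Fin M) ℂ := fun i j =>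
  (if (i : ℕ) = j then ((V (a + i) : ℝ) : ℂ) else 0) + (if (i : ℕ) + 1 = j then 1 else 0) +
    (if (j : ℕ) + 1 = i then 1 else 0)

theorem boxM_herm (V : ℤ → ℝ) (a : ℤ) (M : ℕ) : (boxM V a M).IsHermitian := by
  ext i j
  simp only [boxM, Matrix.conjTranspose_apply, star_add]
  have h1 : star (if (j : ℕ) = i then ((V (a + j) : ℝ) : ℂ) else 0) =
      if (i : ℕ) = j then ((V (a + i) : ℝ) : ℂ) else 0 := by
    by_cases h : (j : ℕ) = i
    · rw [if_pos h, if_pos h.symm, h]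
      exact Complex.conj_ofReal _
    · rw [if_neg h, if_neg (fun h' => h h'.symm)]
      simp
  have h2 : ∀ P : Prop, ∀ [Decidable P], star (if P then (1 : ℂ) else 0) = if P then 1 else 0 := by
    intro P _
    split_ifs <;> simp
  rw [h1, h2, h2]
  ring

theorem boxM_mulVec (V : ℤ → ℝ) (a : ℤ) (M : ℕ) (ψ : ℤ → ℂ) (i : Fin M) :
    (boxM V a M *ᵥ fun j => ψ (a + j)) i = ((V (a + i) : ℝ) : ℂ) * ψ (a + i) +
      (if (i : ℕ) + 1 < M then ψ (a + i + 1) else 0) + (if 0 < (i : ℕ) then ψ (a + i - 1) else 0) := by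
  have hi := i.2
  simp only [Matrix.mulVec, dotProduct, boxM]
  obtain ⟨f, hf⟩ : ∃ f : ℕ → ℂ, f = fun k : ℕ =>
      (if (i : ℕ) = k then ((V (a + i) : ℝ) : ℂ) * ψ (a + i) else 0) +
      (if (i : ℕ) + 1 = k then ψ (a + i + 1) else 0) +
        (if 0 < (i : ℕ) then (if (i : ℕ) - 1 = k then ψ (a + i - 1) else 0) else 0) := ⟨_, rfl⟩
  have h0 : ∀ j : Fin M, ((if (i : ℕ) = j then ((V (a + i) : ℝ) : ℂ) else 0) +
      (if (i : ℕ) + 1 = j then 1 else 0) + (if (j : ℕ) + 1 = i then 1 else 0)) * ψ (a + j) =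
      f j := by
    intro j
    rw [hf]
    by_cases c1 : (i : ℕ) = j
    · have h3 : ¬ ((i : ℕ) + 1 = j) := by omega
      have h4 : ¬ ((j : ℕ) + 1 = i) := by omega
      have h5 : a + ((j : ℕ) : ℤ) = a + (i : ℕ) := by rw [c1]
      by_cases c0 : 0 < (i : ℕ)
      · have h6 : ¬ ((i : ℕ) - 1 = j) := by omega
        simp only [if_pos c1, if_pos c0, if_neg h3, if_neg h4, if_neg h6, h5, add_zero]
      · simp only [if_pos c1, if_neg c0, if_neg h3, if_neg h4, h5, add_zero]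
    · by_cases c2 : (i : ℕ) + 1 = j
      · have h3 : ¬ ((j : ℕ) + 1 = i) := by omega
        have h4 : ¬ ((i : ℕ) - 1 = j) := by omega
        have h5 : a + (j : ℕ) = a + (i : ℕ) + 1 := by rw [← c2]; push_cast; ring
        simp only [if_neg c1, if_pos c2, if_neg h3, if_neg h4, h5]
        simp
      · by_cases c3 : (j : ℕ) + 1 = i
        · have h3 : (i : ℕ) - 1 = j := by omega
          have h4 : 0 < (i : ℕ) := by omega
          have h5 : a + (j : ℕ) = a + (i : ℕ) - 1 := by rw [← c3]; push_cast; ring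
          simp only [if_neg c1, if_neg c2, if_pos c3, if_pos h3, if_pos h4, h5]
          simp
        · by_cases c0 : 0 < (i : ℕ)
          · have h3 : ¬ (i : ℕ) - 1 = j := by omega
            simp only [if_neg c1, if_neg c2, if_neg c3, if_neg h3, if_pos c0]
            simp
          · simp only [if_neg c1, if_neg c2, if_neg c3, if_neg c0]
            simp
  rw [Finset.sum_congr rfl fun j _ => h0 j, Fin.sum_univ_eq_sum_range f M, hf]
  rw [Finset.sum_add_distrib, Finset.sum_add_distrib, Finset.sum_ite_eq, Finset.sum_ite_eq]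
  congr 1
  · congr 1
    · rw [if_pos (Finset.mem_range.2 hi)]
    · simp only [Finset.mem_range]
  · by_cases c0 : 0 < (i : ℕ)
    · simp only [if_pos c0]
      rw [Finset.sum_ite_eq, if_pos (Finset.mem_range.2 (by omega))]
    · simp only [if_neg c0]
      simp

/-- approximate eigenvectors of the box -/
theorem box_near (V : ℤ → ℝ) (a : ℤ) (M : ℕ) (hM : 2 ≤ M) : ∃ C : Finset ℝ, C.card ≤ M ∧
    ∀ (E κ : ℝ) (ψ : ℤ → ℂ), 0 ≤ κ → 0 < ∑ i ∈ Finset.range M, ‖ψ (a + i)‖ ^ 2 →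
    2 * ∑ i ∈ Finset.range M,
        ‖ψ (a + i + 1) + ψ (a + i - 1) + ((V (a + i) - E : ℝ) : ℂ) * ψ (a + i)‖ ^ 2 +
      2 * (‖ψ (a - 1)‖ ^ 2 + ‖ψ (a + M)‖ ^ 2) ≤ κ ^ 2 * ∑ i ∈ Finset.range M, ‖ψ (a + i)‖ ^ 2 →
    ∃ c ∈ C, |c - E| ≤ κ := by
  set A := boxM V a M with hA
  have hherm : A.IsHermitian := boxM_herm V a M
  have hsym : (Matrix.toEuclideanLin A).IsSymmetric := Matrix.isSymmetric_toEuclideanLin_iff.2 hherm
  have hfr : Module.finrank ℂ (EuclideanSpace ℂ (Fin M)) = M := by simp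
  refine ⟨Finset.univ.image (hsym.eigenvalues hfr), ?_, ?_⟩
  · refine Finset.card_image_le.trans ?_
    simp
  intro E κ ψ hκ hpos hle
  set x : EuclideanSpace ℂ (Fin M) := WithLp.toLp 2 (fun j : Fin M => ψ (a + j)) with hx
  have hxa : ∀ j : Fin M, x j = ψ (a + j) := fun j => rfl
  have hnx : ‖x‖ ^ 2 = ∑ i ∈ Finset.range M, ‖ψ (a + i)‖ ^ 2 := by
    rw [EuclideanSpace.norm_sq_eq]
    simp only [hxa]
    exact Fin.sum_univ_eq_sum_range (fun i => ‖ψ (a + i)‖ ^ 2) M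
  have hx0 : x ≠ 0 := by
    rintro h
    rw [h] at hnx
    simp only [norm_zero] at hnx
    rw [← hnx] at hpos
    norm_num at hpos
  set g : ℕ → ℂ := fun i =>
    ψ (a + i + 1) + ψ (a + i - 1) + ((V (a + i) - E : ℝ) : ℂ) * ψ (a + i) with hg
  have hval : ∀ i : Fin M, (Matrix.toEuclideanLin A x - (E : ℂ) • x) i =
      g i - (if (i : ℕ) + 1 < M then 0 else ψ (a + i + 1)) -
        (if 0 < (i : ℕ) then 0 else ψ (a + i - 1)) := by
    intro i
    have h1 : (Matrix.toEuclideanLin A x) i = (A *ᵥ fun j : Fin M => ψ (a + j)) i := rfl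
    rw [PiLp.sub_apply, PiLp.smul_apply, h1, hA, boxM_mulVec, hxa, smul_eq_mul]
    simp only [hg]
    push_cast
    split_ifs <;> ring
  have hnr : ‖Matrix.toEuclideanLin A x - (E : ℂ) • x‖ ^ 2 ≤
      2 * ∑ i ∈ Finset.range M, ‖g i‖ ^ 2 + 2 * (‖ψ (a - 1)‖ ^ 2 + ‖ψ (a + M)‖ ^ 2) := by
    rw [EuclideanSpace.norm_sq_eq]
    obtain ⟨f, hf⟩ : ∃ f : ℕ → ℝ, f = fun k : ℕ =>
        2 * ‖g k‖ ^ 2 + ((if 0 = k then 2 * ‖ψ (a - 1)‖ ^ 2 else 0) +
          (if M - 1 = k then 2 * ‖ψ (a + M)‖ ^ 2 else 0)) := ⟨_, rfl⟩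
    have hb : ∀ i : Fin M, ‖(Matrix.toEuclideanLin A x - (E : ℂ) • x) i‖ ^ 2 ≤ f i := by
      intro i
      have hi := i.2
      rw [hval, hf]
      by_cases c0 : 0 < (i : ℕ)
      · by_cases c1 : (i : ℕ) + 1 < M
        · have h3 : ¬ (0 = (i : ℕ)) := by omega
          have h4 : ¬ (M - 1 = (i : ℕ)) := by omega
          simp only [if_pos c0, if_pos c1, if_neg h3, if_neg h4, sub_zero, add_zero]
          nlinarith [sq_nonneg ‖g i‖]
        · have h3 : ¬ (0 = (i : ℕ)) := by omega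
          have h4 : M - 1 = (i : ℕ) := by omega
          have h5 : a + ((i : ℕ) : ℤ) + 1 = a + M := by omega
          simp only [if_pos c0, if_neg c1, if_neg h3, if_pos h4, sub_zero, zero_add]
          rw [h5]
          have h1 := norm_sub_le (g i) (ψ (a + M))
          have h2 := pow_le_pow_left₀ (norm_nonneg _) h1 2
          nlinarith [sq_nonneg (‖g i‖ - ‖ψ (a + M)‖)]
      · have c1 : (i : ℕ) + 1 < M := by omega
        have h3 : 0 = (i : ℕ) := by omega
        have h4 : ¬ (M - 1 = (i : ℕ)) := by omega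
        have h5 : a + ((i : ℕ) : ℤ) - 1 = a - 1 := by omega
        simp only [if_neg c0, if_pos c1, if_pos h3, if_neg h4, sub_zero, add_zero]
        rw [h5]
        have h1 := norm_sub_le (g i) (ψ (a - 1))
        have h2 := pow_le_pow_left₀ (norm_nonneg _) h1 2
        nlinarith [sq_nonneg (‖g i‖ - ‖ψ (a - 1)‖)]
    refine (Finset.sum_le_sum fun i _ => hb i).trans (le_of_eq ?_)
    rw [Fin.sum_univ_eq_sum_range f M, hf, Finset.sum_add_distrib, Finset.sum_add_distrib,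
      Finset.sum_ite_eq, Finset.sum_ite_eq, if_pos (Finset.mem_range.2 (by omega)),
      if_pos (Finset.mem_range.2 (by omega)), ← Finset.mul_sum]
    ring
  have hle2 : ‖Matrix.toEuclideanLin A x - (E : ℂ) • x‖ ≤ κ * ‖x‖ := by
    apply le_of_sq_le_sq _ (by positivity)
    rw [mul_pow, hnx]
    exact hnr.trans hle
  obtain ⟨i, hi⟩ := near_eig _ hsym hfr E κ x hx0 hle2
  exact ⟨_, Finset.mem_image_of_mem _ (Finset.mem_univ i), hi⟩

end Pool.Agent.W810.LP
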