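import Pool.Agent.H54R3.Spec508

set_option autoImplicit false

namespace Pool.Agent.W810.LP

open Filter Topology MeasureTheory Pool.Agent.H54R3.Spec508

/-- continuous approximations of the indicator of a closed set -/
noncomputable def apx (K : Set ℝ) (n : ℕ) (x : ℝ) : ℝ := max 0 (1 - n * Metric.infDist x K)

lemma apx_cont (K : Set ℝ) (n : ℕ) : Continuous (apx K n) := by
  unfold apx
  exact continuous_const.max (continuous_const.sub (continuous_const.mul (Metric.continuous_infDist_pt K)))

lemma apx_nonneg (K : Set ℝ) (n : ℕ) (x : ℝ) : 0 ≤ apx K n x := le_max_left _ _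

lemma apx_le_one (K : Set ℝ) (n : ℕ) (x : ℝ) : apx K n x ≤ 1 := by
  unfold apx
  refine max_le zero_le_one ?_
  have : 0 ≤ (n : ℝ) * Metric.infDist x K := mul_nonneg (Nat.cast_nonneg n) Metric.infDist_nonneg
  linarith

lemma apx_lim {K : Set ℝ} (hK : IsClosed K) (hne : K.Nonempty) (x : ℝ) :
    Tendsto (fun n => apx K n x) atTop (𝓝 (Set.indicator K (fun _ => (1 : ℝ)) x)) := by
  by_cases h : x ∈ K
  · rw [Set.indicator_of_mem h]
    have : ∀ n, apx K n x = 1 := by
      intro n
      simp [apx, Metric.infDist_zero_of_mem h]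
    simp only [this]
    exact tendsto_const_nhds
  · rw [Set.indicator_of_notMem h]
    have hpos : 0 < Metric.infDist x K := (hK.notMem_iff_infDist_pos hne).1 h
    obtain ⟨N, hN⟩ := exists_nat_gt (1 / Metric.infDist x K)
    refine tendsto_const_nhds.congr' ?_
    filter_upwards [eventually_ge_atTop N] with n hn
    unfold apx
    rw [max_eq_left]
    have h1 : 1 / Metric.infDist x K < n := lt_of_lt_of_le hN (by exact_mod_cast hn)
    rw [div_lt_iff₀ hpos] at h1
    linarith

variable {X : Type} [NormedAddCommGroup X] [InnerProductSpace ℂ X] [CompleteSpace X]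

/-- the vector `1_K(H) e` and its spectral measure -/
theorem exists_restrict {H : X →L[ℂ] X} (hH : IsSelfAdjoint H) (e : X) {K : Set ℝ}
    (hK : IsClosed K) (hne : K.Nonempty) : ∃ ψ : X, ∀ g : ℝ → ℝ, Continuous g →
      Integrable g ((mu H e).restrict K) ∧
      ((∫ x, g x ∂((mu H e).restrict K) : ℝ) : ℂ) = inner ℂ ψ (cfc g H ψ) := by
  set f := apx K with hf
  have hfc : ∀ n, Continuous (f n) := apx_cont K
  have hind : Measurable (Set.indicator K (fun _ => (1 : ℝ))) :=
    measurable_const.indicator hK.measurableSet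
  set v : ℕ → X := fun n => cfc (f n) H e with hv
  have hdiff : ∀ m n, ‖v m - v n‖ ^ 2 = ∫ x, (f m x - f n x) * (f m x - f n x) ∂(mu H e) := by
    intro m n
    have h1 : v m - v n = cfc (fun x => f m x - f n x) H e := by
      rw [cfc_sub (f m) (f n) H (hfc m).continuousOn (hfc n).continuousOn]
      rfl
    have hc : Continuous (fun x => f m x - f n x) := (hfc m).sub (hfc n)
    rw [h1, norm_cfc hH e _ hc]
  set χ : ℝ → ℝ := Set.indicator K (fun _ => (1 : ℝ)) with hχ
  have hχ0 : ∀ x, 0 ≤ χ x ∧ χ x ≤ 1 := by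
    intro x
    by_cases h : x ∈ K
    · rw [hχ, Set.indicator_of_mem h]; norm_num
    · rw [hχ, Set.indicator_of_notMem h]; norm_num
  set a : ℕ → ℝ := fun n => ∫ x, (f n x - χ x) ^ 2 ∂(mu H e) with ha
  have hai : ∀ n, Integrable (fun x => (f n x - χ x) ^ 2) (mu H e) := by
    intro n
    refine Integrable.of_bound (C := 1) ?_ ?_
    · exact (((hfc n).measurable.sub hind).pow_const 2).aestronglyMeasurable
    · refine Eventually.of_forall fun x => ?_
      rw [Real.norm_eq_abs, abs_of_nonneg (sq_nonneg _)]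
      have h1 := hχ0 x
      have h2 := apx_nonneg K n x
      have h3 := apx_le_one K n x
      change 0 ≤ f n x at h2
      change f n x ≤ 1 at h3
      nlinarith
  have halim : Tendsto a atTop (𝓝 0) := by
    have h1 : Tendsto a atTop (𝓝 (∫ _ : ℝ, (0 : ℝ) ∂(mu H e))) := by
      refine tendsto_integral_of_dominated_convergence (fun _ => (1 : ℝ)) ?_ (integrable_const _)
        ?_ ?_
      · intro n
        exact (((hfc n).measurable.sub hind).pow_const 2).aestronglyMeasurable
      · intro n
        refine Eventually.of_forall fun x => ?_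
        rw [Real.norm_eq_abs, abs_of_nonneg (sq_nonneg _)]
        have h1 := hχ0 x
        have h2 := apx_nonneg K n x
        have h3 := apx_le_one K n x
        change 0 ≤ f n x at h2
        change f n x ≤ 1 at h3
        nlinarith
      · refine Eventually.of_forall fun x => ?_
        have h1 := ((apx_lim hK hne x).sub_const (χ x)).pow 2
        rw [sub_self] at h1
        simpa using h1
    simpa using h1
  have hcau : CauchySeq v := by
    rw [Metric.cauchySeq_iff']
    intro ε hε
    have h1 := halim.eventually (gt_mem_nhds (show (0 : ℝ) < ε ^ 2 / 8 by positivity))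
    obtain ⟨N, hN⟩ := eventually_atTop.1 h1
    refine ⟨N, fun n hn => ?_⟩
    rw [dist_eq_norm]
    have h2 : ‖v n - v N‖ ^ 2 ≤ 2 * a n + 2 * a N := by
      rw [hdiff, ha]
      simp only
      rw [← integral_const_mul, ← integral_const_mul, ← integral_add ((hai n).const_mul 2)
        ((hai N).const_mul 2)]
      refine integral_mono (key H e _ (((hfc n).sub (hfc N)).mul ((hfc n).sub (hfc N)))).1
        (((hai n).const_mul 2).add ((hai N).const_mul 2)) ?_
      intro x
      simp only
      nlinarith [sq_nonneg ((f n x - χ x) + (f N x - χ x))]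
    have h3 : ‖v n - v N‖ ^ 2 < ε ^ 2 := by
      have := hN n hn
      have := hN N le_rfl
      nlinarith
    exact lt_of_pow_lt_pow_left₀ 2 hε.le h3
  obtain ⟨ψ, hψ⟩ := cauchySeq_tendsto_of_complete hcau
  refine ⟨ψ, fun g hg => ?_⟩
  have hgi := (key2 H e g hg).1
  refine ⟨hgi.restrict, ?_⟩
  have hn : ∀ n, ((∫ x, f n x * (g x * f n x) ∂(mu H e) : ℝ) : ℂ) = inner ℂ (v n) (cfc g H (v n)) := by
    intro n
    have hc : Continuous (fun x => f n x * (g x * f n x)) := (hfc n).mul (hg.mul (hfc n))
    rw [(key2 H e _ hc).2, cfc_mul (f n) (fun x => g x * f n x) H (hfc n).continuousOn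
      (hg.mul (hfc n)).continuousOn, cfc_mul g (f n) H hg.continuousOn (hfc n).continuousOn]
    have h1 := (ContinuousLinearMap.isSelfAdjoint_iff_isSymmetric.mp (cfc_sa H (f n)))
    exact (h1 e _).symm
  have hlim1 : Tendsto (fun n => ∫ x, f n x * (g x * f n x) ∂(mu H e)) atTop
      (𝓝 (∫ x, g x ∂((mu H e).restrict K))) := by
    rw [← integral_indicator hK.measurableSet]
    refine tendsto_integral_of_dominated_convergence (fun x => |g x|) ?_ hgi.abs ?_ ?_
    · intro n
      exact ((hfc n).mul (hg.mul (hfc n))).aestronglyMeasurable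
    · intro n
      refine Eventually.of_forall fun x => ?_
      have h2 := apx_nonneg K n x
      have h3 := apx_le_one K n x
      change 0 ≤ f n x at h2
      change f n x ≤ 1 at h3
      rw [Real.norm_eq_abs, abs_mul, abs_mul, abs_of_nonneg h2]
      have h4 := abs_nonneg (g x)
      calc f n x * (|g x| * f n x) ≤ 1 * (|g x| * 1) := by gcongr
        _ = |g x| := by ring
    · refine Eventually.of_forall fun x => ?_
      have h1 := (apx_lim hK hne x).mul ((apx_lim hK hne x).const_mul (g x))
      have h2 : Set.indicator K (fun _ => (1 : ℝ)) x * (g x * Set.indicator K (fun _ => (1 : ℝ)) x) =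
          Set.indicator K g x := by
        by_cases h : x ∈ K
        · rw [Set.indicator_of_mem h, Set.indicator_of_mem h]; ring
        · rw [Set.indicator_of_notMem h, Set.indicator_of_notMem h]; ring
      rw [h2] at h1
      exact h1
  have hlim2 : Tendsto (fun n => inner ℂ (v n) (cfc g H (v n))) atTop
      (𝓝 (inner ℂ ψ (cfc g H ψ))) :=
    hψ.inner (((cfc g H).continuous.tendsto ψ).comp hψ)
  have hlim3 : Tendsto (fun n => ((∫ x, f n x * (g x * f n x) ∂(mu H e) : ℝ) : ℂ)) atTop
      (𝓝 ((∫ x, g x ∂((mu H e).restrict K) : ℝ) : ℂ)) :=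
    (Complex.continuous_ofReal.tendsto _).comp hlim1
  simp only [hn] at hlim3
  exact tendsto_nhds_unique hlim3 hlim2

/-- a spectral measure which is not singular gives an absolutely continuous one -/
theorem exists_ac {H : X →L[ℂ] X} (hH : IsSelfAdjoint H) (e : X)
    (hns : ¬ (mu H e).MutuallySingular volume) : ∃ (ψ : X) (μ : Measure ℝ), ψ ≠ 0 ∧
      IsFiniteMeasure μ ∧ (∀ g : ℝ → ℝ, Continuous g → Integrable g μ ∧
        ((∫ x, g x ∂μ : ℝ) : ℂ) = inner ℂ ψ (cfc g H ψ)) ∧ μ ≪ volume := by
  obtain ⟨T, hT, hT1, hT2⟩ := Measure.mutuallySingular_singularPart (mu H e) volume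
  have hT0 : mu H e T ≠ 0 := by
    intro h
    exact hns ⟨T, hT, h, hT2⟩
  obtain ⟨K, hKT, hKc, hK0⟩ := hT.exists_lt_isCompact (pos_iff_ne_zero.2 hT0)
  have hne : K.Nonempty := nonempty_of_measure_ne_zero hK0.ne'
  obtain ⟨ψ, hψ⟩ := exists_restrict hH e hKc.isClosed hne
  refine ⟨ψ, (mu H e).restrict K, ?_, inferInstance, hψ, ?_⟩
  · intro h0
    have h1 := (hψ (fun _ => 1) continuous_const).2
    rw [h0, inner_zero_left] at h1
    have h2 : (∫ x, (1 : ℝ) ∂((mu H e).restrict K)) = (mu H e).real K := by
      rw [integral_const]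
      simp [Measure.real]
    rw [h2] at h1
    have h3 : (mu H e).real K = 0 := by exact_mod_cast h1
    rw [Measure.real, ENNReal.toReal_eq_zero_iff] at h3
    rcases h3 with h3 | h3
    · exact hK0.ne' h3
    · exact measure_ne_top _ _ h3
  · intro s hs
    rw [Measure.restrict_apply' hKc.measurableSet]
    have hd := Measure.haveLebesgueDecomposition_add (mu H e) volume
    rw [hd, Measure.add_apply]
    have h1 : (mu H e).singularPart volume (s ∩ K) = 0 :=
      measure_mono_null (Set.inter_subset_right.trans hKT) hT1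
    have h2 : volume.withDensity ((mu H e).rnDeriv volume) (s ∩ K) = 0 :=
      withDensity_absolutelyContinuous _ _ (measure_mono_null Set.inter_subset_left hs)
    rw [h1, h2, add_zero]

/-- no absolutely continuous part on a null spectrum -/
theorem no_ac {H : X →L[ℂ] X} (h0 : volume (spectrum ℝ H) = 0) (ψ : X) (μ : Measure ℝ)
    [IsFiniteMeasure μ] (hμ : ∀ g : ℝ → ℝ, Continuous g → Integrable g μ ∧
      ((∫ x, g x ∂μ : ℝ) : ℂ) = inner ℂ ψ (cfc g H ψ)) (hac : μ ≪ volume)
    (hH : IsSelfAdjoint H) : ψ = 0 := by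
  have h1 := (hμ (fun _ => 1) continuous_const).2
  rw [cfc_const_one ℝ H] at h1
  have hfin : inner ℂ ψ ψ = 0 → ψ = 0 := fun h => inner_self_eq_zero.1 h
  apply hfin
  have e1 : inner ℂ ψ ((1 : X →L[ℂ] X) ψ) = inner ℂ ψ ψ := rfl
  rw [e1] at h1
  rcases (spectrum ℝ H).eq_empty_or_nonempty with he | hne
  · have h2 : cfc (fun _ : ℝ => (1 : ℝ)) H = cfc (fun _ : ℝ => (0 : ℝ)) H :=
      cfc_congr (fun x hx => by rw [he] at hx; exact absurd hx (Set.notMem_empty x))
    rw [cfc_const_one ℝ H, cfc_const_zero ℝ H] at h2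
    have h3 : ψ = 0 := by
      have : (1 : X →L[ℂ] X) ψ = (0 : X →L[ℂ] X) ψ := by rw [h2]
      simpa using this
    rw [h3, inner_zero_left]
  · have hcl : IsClosed (spectrum ℝ H) := (spectrum.isCompact H).isClosed
    have h2 := hμ (fun x => Metric.infDist x (spectrum ℝ H)) (Metric.continuous_infDist_pt _)
    have h3 : cfc (fun x => Metric.infDist x (spectrum ℝ H)) H = cfc (fun _ : ℝ => (0 : ℝ)) H :=
      cfc_congr (fun x hx => Metric.infDist_zero_of_mem hx)
    rw [h3, cfc_const_zero ℝ H] at h2
    have h4 : ∫ x, Metric.infDist x (spectrum ℝ H) ∂μ = 0 := by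
      have := h2.2
      simpa using this
    rw [integral_eq_zero_iff_of_nonneg (fun x => Metric.infDist_nonneg) h2.1] at h4
    have h5 : μ (spectrum ℝ H)ᶜ = 0 := by
      refine measure_mono_null ?_ h4
      intro x hx
      have : 0 < Metric.infDist x (spectrum ℝ H) := (hcl.notMem_iff_infDist_pos hne).1 hx
      intro h
      exact this.ne' h
    have h6 : μ (spectrum ℝ H) = 0 := hac h0
    have h7 : μ = 0 := by
      rw [← Measure.measure_univ_eq_zero, ← Set.union_compl_self (spectrum ℝ H)]
      exact measure_union_null h6 h5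
    rw [h7, integral_zero_measure] at h1
    rw [← h1]
    simp

end Pool.Agent.W810.LP
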