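import Pool.Agent.H508R3.Pol
import Pool.Agent.H54R3.Meas508

set_option autoImplicit false

namespace Pool.Agent.W810.LP

open Polynomial MeasureTheory

theorem shift_ne {p : ℝ[X]} (hp : 0 < p.natDegree) {t : ℝ} (ht : t ≠ 0) :
    p ≠ p.comp (X - C t) := by
  intro h
  have h1 : ∀ x : ℝ, p.eval x = p.eval (x - t) := by
    intro x
    conv_lhs => rw [h]
    rw [eval_comp, eval_sub, eval_X, eval_C]
  have h2 : ∀ n : ℕ, p.eval (n * t) = p.eval 0 := by
    intro n
    induction n with
    | zero => simp
    | succ n ih =>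
      rw [h1, ← ih]
      congr 1
      push_cast
      ring
  have h3 : p = C (p.eval 0) := by
    apply Polynomial.eq_of_infinite_eval_eq
    refine Set.infinite_of_injective_forall_mem (f := fun n : ℕ => (n : ℝ) * t) ?_ ?_
    · intro a b hab
      have := mul_right_cancel₀ ht hab
      exact_mod_cast this
    · intro n
      simp [h2 n]
  rw [h3, natDegree_C] at hp
  exact lt_irrefl _ hp

/-- the polynomial whose zeros contain a level set of the two-block phase -/
noncomputable def levelPoly (p : ℝ[X]) (t c : ℝ) : ℝ[X] :=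
  p * p + p.comp (X - C t) * p.comp (X - C t) - C (2 * c) * (p * p.comp (X - C t)) +
    C (4 * (c ^ 2 - 1))

theorem levelPoly_ne {p : ℝ[X]} (hp : 0 < p.natDegree) {t : ℝ} (ht : t ≠ 0) (c : ℝ) :
    levelPoly p t c ≠ 0 := by
  intro h
  by_cases hc : c = 1
  · subst hc
    have h1 : (p - p.comp (X - C t)) * (p - p.comp (X - C t)) = 0 := by
      have h2 : levelPoly p t 1 = (p - p.comp (X - C t)) * (p - p.comp (X - C t)) := by
        unfold levelPoly
        have : (C (2 * (1 : ℝ)) : ℝ[X]) = 2 := by rw [mul_one]; rfl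
        rw [this]
        simp
        ring
      rw [← h2, h]
    have h2 := mul_self_eq_zero.1 h1
    exact shift_ne hp ht (sub_eq_zero.1 h2)
  · have hd : (p.comp (X - C t)).natDegree = p.natDegree := by
      rw [natDegree_comp, natDegree_X_sub_C, mul_one]
    have hl : (p.comp (X - C t)).leadingCoeff = p.leadingCoeff := by
      rw [leadingCoeff_comp (by rw [natDegree_X_sub_C]; norm_num), leadingCoeff_X_sub_C, one_pow,
        mul_one]
    have hl0 : p.leadingCoeff ≠ 0 := by
      rw [leadingCoeff_ne_zero]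
      rintro rfl
      simp at hp
    have hcoef := congrArg (fun r => coeff r (p.natDegree + p.natDegree)) h
    simp only [levelPoly, coeff_add, coeff_sub, coeff_C_mul, coeff_zero] at hcoef
    rw [coeff_mul_degree_add_degree] at hcoef
    have e1 : (p.comp (X - C t) * p.comp (X - C t)).coeff (p.natDegree + p.natDegree) =
        p.leadingCoeff * p.leadingCoeff := by
      conv_lhs => rw [← hd]
      rw [coeff_mul_degree_add_degree, hl]
    have e2 : (p * p.comp (X - C t)).coeff (p.natDegree + p.natDegree) =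
        p.leadingCoeff * p.leadingCoeff := by
      have := coeff_mul_degree_add_degree (p := p) (q := p.comp (X - C t))
      rw [hd, hl] at this
      exact this
    rw [e1, e2, coeff_C, if_neg (by omega)] at hcoef
    have : (2 - 2 * c) * (p.leadingCoeff * p.leadingCoeff) = 0 := by linarith
    rcases mul_eq_zero.1 this with h1 | h1
    · exact hc (by linarith)
    · exact hl0 (mul_self_eq_zero.1 h1)

theorem null_two (p : ℝ[X]) (hp : 0 < p.natDegree) (t : ℝ) (ht : t ≠ 0) (r : ℕ) (hr : 1 ≤ r) :
    volume {e : ℝ | |p.eval e| ≤ 2 ∧ |p.eval (e - t)| ≤ 2 ∧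
      Real.sin (2 * r * (Real.arccos (p.eval e / 2) + Real.arccos (p.eval (e - t) / 2))) = 0} = 0 := by
  have hfin : Set.Finite (⋃ k ∈ Finset.range (4 * r + 1),
      {e : ℝ | (levelPoly p t (Real.cos (k * Real.pi / (2 * r)))).IsRoot e}) := by
    refine Set.Finite.biUnion (Finset.finite_toSet _) (fun k _ => ?_)
    exact Polynomial.finite_setOfPred_isRoot (levelPoly_ne hp ht _)
  refine measure_mono_null ?_ (hfin.measure_zero volume)
  rintro e ⟨h1, h1', h2⟩
  have hr' : (0 : ℝ) < r := by exact_mod_cast hr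
  obtain ⟨k, hk⟩ := Real.sin_eq_zero_iff.mp h2
  set φ := Real.arccos (p.eval e / 2) + Real.arccos (p.eval (e - t) / 2) with hφ
  have ha : 0 ≤ φ := add_nonneg (Real.arccos_nonneg _) (Real.arccos_nonneg _)
  have hb : φ ≤ 2 * Real.pi := by
    have := Real.arccos_le_pi (p.eval e / 2)
    have := Real.arccos_le_pi (p.eval (e - t) / 2)
    linarith
  have hk0 : 0 ≤ k := by
    have : (0 : ℝ) ≤ k * Real.pi := by rw [hk]; positivity
    have h3 : (0 : ℝ) ≤ k := nonneg_of_mul_nonneg_left this Real.pi_pos
    exact_mod_cast h3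
  have hk1 : k ≤ 4 * r := by
    have : (k : ℝ) * Real.pi ≤ (4 * r) * Real.pi := by
      rw [hk]
      calc 2 * (r : ℝ) * φ ≤ 2 * r * (2 * Real.pi) := by gcongr
        _ = _ := by ring
    have h3 : (k : ℝ) ≤ 4 * r := le_of_mul_le_mul_right this Real.pi_pos
    exact_mod_cast h3
  obtain ⟨k', rfl⟩ := Int.eq_ofNat_of_zero_le hk0
  simp only [Set.mem_iUnion]
  refine ⟨k', Finset.mem_range.mpr (by omega), ?_⟩
  have h4 : φ = k' * Real.pi / (2 * r) := by
    rw [eq_div_iff (by positivity)]
    push_cast at hk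
    linarith
  have h5 : Real.cos (Real.arccos (p.eval e / 2)) = p.eval e / 2 := by
    apply Real.cos_arccos
    · have := (abs_le.mp h1).1; linarith
    · have := (abs_le.mp h1).2; linarith
  have h6 : Real.cos (Real.arccos (p.eval (e - t) / 2)) = p.eval (e - t) / 2 := by
    apply Real.cos_arccos
    · have := (abs_le.mp h1').1; linarith
    · have := (abs_le.mp h1').2; linarith
  set A := Real.arccos (p.eval e / 2) with hA
  set B := Real.arccos (p.eval (e - t) / 2) with hB
  change (levelPoly p t _).IsRoot e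
  rw [← h4, IsRoot, levelPoly]
  simp only [eval_add, eval_sub, eval_mul, eval_C, eval_comp, eval_X]
  have e1 : p.eval e = 2 * Real.cos A := by rw [h5]; ring
  have e2 : p.eval (e - t) = 2 * Real.cos B := by rw [h6]; ring
  rw [e1, e2, hφ, Real.cos_add]
  have s1 := Real.sin_sq_add_cos_sq A
  have s2 := Real.sin_sq_add_cos_sq B
  linear_combination (4 * (1 - Real.cos A ^ 2)) * s2 + (4 * Real.sin B ^ 2) * s1

end Pool.Agent.W810.LP
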