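import Pool.Agent.W810.LP.Two
import Pool.Agent.W810.LP.Null

set_option autoImplicit false

namespace Pool.Agent.W810.LP

open Complex Pool.Agent.H508R3 ComplexConjugate MeasureTheory

lemma exp_arccos (z : ℂ) (hz : ‖z‖ = 1) (h : 0 ≤ z.im) : z = exp (Real.arccos z.re * I) := by
  have h1 : z.re ^ 2 + z.im ^ 2 = 1 := by
    have := Complex.sq_norm z
    rw [hz, Complex.normSq_apply] at this
    linarith
  have hle : z.re ≤ 1 := by nlinarith [sq_nonneg z.im]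
  have hge : -1 ≤ z.re := by nlinarith [sq_nonneg z.im]
  apply Complex.ext
  · rw [Complex.exp_ofReal_mul_I_re, Real.cos_arccos hge hle]
  · rw [Complex.exp_ofReal_mul_I_im, Real.sin_arccos]
    have : 1 - z.re ^ 2 = z.im ^ 2 := by linarith
    rw [this, Real.sqrt_sq h]

lemma im_pow2 (z z₁ : ℂ) (hz : ‖z‖ = 1) (hz₁ : ‖z₁‖ = 1) (hs : 0 < z₁.im * z.im) (n : ℕ) :
    |((z * z₁) ^ n).im| = |Real.sin (n * (Real.arccos z.re + Real.arccos z₁.re))| := by
  have key : ∀ z z₁ : ℂ, ‖z‖ = 1 → ‖z₁‖ = 1 → 0 ≤ z.im → 0 ≤ z₁.im →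
      |((z * z₁) ^ n).im| = |Real.sin (n * (Real.arccos z.re + Real.arccos z₁.re))| := by
    intro z z₁ hz hz₁ h h₁
    conv_lhs => rw [exp_arccos z hz h, exp_arccos z₁ hz₁ h₁, ← Complex.exp_add, ← Complex.exp_nat_mul]
    rw [show (n : ℂ) * ((Real.arccos z.re : ℂ) * I + (Real.arccos z₁.re : ℂ) * I) =
      ((n * (Real.arccos z.re + Real.arccos z₁.re) : ℝ) : ℂ) * I by push_cast; ring,
      Complex.exp_ofReal_mul_I_im]
  rcases le_or_gt 0 z.im with h | h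
  · apply key z z₁ hz hz₁ h
    by_contra hcon
    push Not at hcon
    exact absurd hs (not_lt.2 (mul_nonpos_of_nonpos_of_nonneg hcon.le h))
  · have h₁ : z₁.im ≤ 0 := by
      by_contra hcon
      push Not at hcon
      exact absurd hs (not_lt.2 (mul_nonpos_of_nonneg_of_nonpos hcon.le h.le))
    have := key (conj z) (conj z₁) (by rw [RCLike.norm_conj, hz]) (by rw [RCLike.norm_conj, hz₁])
      (by rw [Complex.conj_im]; linarith) (by rw [Complex.conj_im]; linarith)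
    rw [← map_mul, ← map_pow, Complex.conj_im, abs_neg, Complex.conj_re, Complex.conj_re] at this
    exact this

/-- the good energies at level `k` -/
def Good (a : ℝ) (V : ℤ → ℝ) (N k : ℕ) (G : Set ℝ) : Prop :=
  MeasurableSet G ∧ G ⊆ Set.Ioo (-1) 1 ∧ ∀ e ∈ G, ∃ (z : ℂ) (w : ℤ → ℂ),
    Bloch (fun n => a * V n) e N z w (2 * (2 - 1 / 2 ^ k)) ∧ 1 / 2 ^ (k + 7) ≤ |z.im|

lemma bloch_shift {U : ℤ → ℝ} {t e : ℝ} {N : ℕ} {z : ℂ} {w : ℤ → ℂ} {B : ℝ}
    (h : Bloch (fun n => U n + t) e N z w B) : Bloch U (e - t) N z w B := by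
  refine ⟨fun n => ?_, h.per, h.unit, h.wron, h.bd⟩
  have := h.eq n
  rw [show U n - (e - t) = U n + t - e by ring]
  exact this

/-- the phase -/
noncomputable def phi (V : ℤ → ℝ) (N : ℕ) (t e : ℝ) : ℝ :=
  Real.arccos ((trp V N).eval e / 2) + Real.arccos ((trp V N).eval (e - t) / 2)

lemma phi_meas (V : ℤ → ℝ) (N : ℕ) (t : ℝ) : Measurable (phi V N t) := by
  unfold phi
  refine Measurable.add ?_ ?_
  · exact Real.measurable_arccos.comp ((trp V N).continuous.measurable.div_const 2)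
  · exact Real.measurable_arccos.comp
      (((trp V N).continuous.measurable.comp (measurable_id.sub_const t)).div_const 2)

/-- the numbers of the induction step -/
lemma nums (k N : ℕ) (hN : 0 < N) (ε : ℝ) (hε0 : 0 < ε) (hε : ε ≤ 8 * (1 / 8) ^ k / N) (x : ℝ)
    (hx : x = N * (1 / 2 ^ 33 * ε * (2 * (2 - 1 / 2 ^ k)))) :
    0 ≤ x ∧ 16 * x ≤ 1 / 2 ^ (k + 7) ∧ 100 * (x / (1 / 2 ^ (k + 7))) ≤ 1 / 2 ^ (k + 7) ∧
    2 * (2 - 1 / 2 ^ k) * (1 + 70 * (x / (1 / 2 ^ (k + 7)) / (1 / 2 ^ (k + 7)))) ≤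
      2 * (2 - 1 / 2 ^ (k + 1)) := by
  have hNr : (0 : ℝ) < N := by exact_mod_cast hN
  obtain ⟨q, hq⟩ : ∃ q : ℝ, q = 1 / 2 ^ k := ⟨_, rfl⟩
  have hq0 : 0 < q := by rw [hq]; positivity
  have hq1 : q ≤ 1 := by
    rw [hq, div_le_one (by positivity)]
    exact one_le_pow₀ (by norm_num)
  have h8 : (1 / 8 : ℝ) ^ k = q ^ 3 := by
    rw [hq, one_div_pow, one_div_pow, ← pow_mul, mul_comm k 3, pow_mul]
    norm_num
  have h7 : (1 : ℝ) / 2 ^ (k + 7) = q / 128 := by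
    rw [hq, pow_add]; norm_num; ring
  have h1 : (1 : ℝ) / 2 ^ (k + 1) = q / 2 := by
    rw [hq, pow_succ]; field_simp
  rw [h8] at hε
  rw [← hq] at hx ⊢
  rw [h7, h1]
  have hNε : N * ε ≤ 8 * q ^ 3 := by
    rw [le_div_iff₀ hNr] at hε
    linarith
  have hx1 : x ≤ q ^ 3 / 2 ^ 28 := by
    rw [hx]
    calc (N : ℝ) * (1 / 2 ^ 33 * ε * (2 * (2 - q))) = (N * ε) * ((2 * (2 - q)) / 2 ^ 33) := by ring
      _ ≤ (8 * q ^ 3) * (4 / 2 ^ 33) := by
          apply mul_le_mul hNε _ (by apply div_nonneg; linarith; positivity) (by positivity)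
          gcongr
          linarith
      _ = _ := by norm_num; ring
  have hx0 : 0 ≤ x := by
    rw [hx]
    have : 0 ≤ 2 - q := by linarith
    positivity
  have hq3 : q ^ 3 ≤ q := by nlinarith [mul_nonneg hq0.le (sub_nonneg.2 hq1), sq_nonneg q]
  have hq32 : q ^ 3 ≤ q ^ 2 := by nlinarith [mul_nonneg (sq_nonneg q) (sub_nonneg.2 hq1)]
  refine ⟨hx0, ?_, ?_, ?_⟩
  · calc 16 * x ≤ 16 * (q ^ 3 / 2 ^ 28) := by gcongr
      _ ≤ 16 * (q / 2 ^ 28) := by gcongr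
      _ ≤ q / 128 := by
        rw [div_eq_mul_inv, div_eq_mul_inv]
        norm_num
        linarith
  · have : 100 * (x / (q / 128)) = 12800 * x / q := by field_simp; ring
    rw [this, div_le_iff₀ hq0]
    calc 12800 * x ≤ 12800 * (q ^ 3 / 2 ^ 28) := by gcongr
      _ ≤ 12800 * (q ^ 2 / 2 ^ 28) := by gcongr
      _ ≤ q / 128 * q := by
        have : 0 ≤ q ^ 2 := sq_nonneg q
        norm_num
        nlinarith
  · have e1 : x / (q / 128) / (q / 128) = 16384 * x / q ^ 2 := by field_simp; norm_num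
    rw [e1]
    have h3 : 16384 * x / q ^ 2 ≤ q / 16384 := by
      rw [div_le_iff₀ (by positivity)]
      calc 16384 * x ≤ 16384 * (q ^ 3 / 2 ^ 28) := by gcongr
        _ = q / 16384 * q ^ 2 := by norm_num; ring
    have h4 : 0 ≤ 16384 * x / q ^ 2 := by positivity
    have h5 : 2 * (2 - q) * (1 + 70 * (16384 * x / q ^ 2)) ≤ 2 * (2 - q) * (1 + 70 * (q / 16384)) := by
      apply mul_le_mul_of_nonneg_left _ (by linarith)
      linarith
    refine h5.trans ?_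
    nlinarith

theorem good_step (k N : ℕ) (hN : 0 < N) (V : ℤ → ℝ) (hV : ∀ n : ℤ, V (n + N) = V n) (ε : ℝ)
    (hε0 : 0 < ε) (hε : ε ≤ 8 * (1 / 8) ^ k / N) (G : Set ℝ) (hG : Good (1 / 2 ^ 33) V N k G)
    (m0 : ℕ) : ∃ m : ℕ, m0 ≤ m ∧ ∃ G' : Set ℝ, G' ⊆ G ∧
      volume (G \ G') ≤ ENNReal.ofReal (8 / ((2 ^ (k + 5) : ℕ) : ℝ)) * volume G ∧
      ∀ V' : ℤ → ℝ, (∀ n : ℤ, V' (n + (2 * (2 * m + 1) * N : ℕ)) = V' n) →
        (∀ n : ℤ, 0 ≤ n → n < ((2 * m + 1) * N : ℕ) → V' n = V n) →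
        (∀ n : ℤ, ((2 * m + 1) * N : ℕ) ≤ n → n < (2 * (2 * m + 1) * N : ℕ) → V' n = V n + ε) →
        Good (1 / 2 ^ 33) V' (2 * (2 * m + 1) * N) (k + 1) G' := by
  obtain ⟨hGm, hGs, hGb⟩ := hG
  set a : ℝ := 1 / 2 ^ 33 with ha
  have ha0 : 0 < a := by rw [ha]; positivity
  set U : ℤ → ℝ := fun n => a * V n with hU
  have hUp : ∀ n : ℤ, U (n + N) = U n := by
    intro n
    simp only [hU, hV n]
  set t : ℝ := a * ε with ht
  have ht0 : 0 < t := by positivity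
  obtain ⟨B, hB⟩ : ∃ B : ℝ, B = 2 * (2 - 1 / 2 ^ k) := ⟨_, rfl⟩
  obtain ⟨ρ, hρ⟩ : ∃ ρ : ℝ, ρ = 1 / 2 ^ (k + 7) := ⟨_, rfl⟩
  obtain ⟨x, hx⟩ : ∃ x : ℝ, x = N * (t * B) := ⟨_, rfl⟩
  obtain ⟨n0, n1, n2, n3⟩ := nums k N hN ε hε0 hε x (by rw [hx, ht, hB])
  rw [← hρ] at n1 n2 n3
  rw [← hB] at n3
  have hρ0 : 0 < ρ := by rw [hρ]; positivity
  have hρ1 : ρ ≤ 1 := by
    rw [hρ, div_le_one (by positivity)]
    exact one_le_pow₀ (by norm_num)
  set φ := phi U N t with hφ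
  have hirr : ∀ r : ℕ, 1 ≤ r → volume {e ∈ G | Real.sin (2 * r * φ e) = 0} = 0 := by
    intro r hr
    refine measure_mono_null ?_ (null_two (trp U N) (trp_natDegree U N hN) t ht0.ne' r hr)
    rintro e ⟨he, hs⟩
    obtain ⟨z, w, hw, hz⟩ := hGb e he
    rw [← hρ] at hz
    rw [← hB] at hw
    obtain ⟨z₁, X, Y, w₁, hw₁, -⟩ := shift_step U e N hN hUp t ρ B x z w hw ht0.le hρ0 hz hx n1 (-1)
    have hz1 : ∀ z : ℂ, ‖z‖ = 1 → |2 * z.re| ≤ 2 := by
      intro z hz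
      rw [abs_mul, abs_two]
      have := Complex.abs_re_le_norm z
      linarith
    refine ⟨?_, ?_, hs⟩
    · rw [trp_eval hw]
      exact hz1 z hw.unit
    · rw [trp_eval (bloch_shift hw₁)]
      exact hz1 z₁ hw₁.unit
  have hGfin : volume G ≠ ⊤ := by
    refine ne_top_of_le_ne_top ?_ (measure_mono hGs)
    rw [Real.volume_Ioo]
    exact ENNReal.ofReal_ne_top
  obtain ⟨m, hm, hvol⟩ := Pool.Agent.H54R3.Meas508.good_m φ (phi_meas U N t) G hGm hGfin hirr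
    (2 ^ (k + 5)) Nat.one_le_two_pow m0
  set Bad : Set ℝ := {e | |Real.sin ((2 * m + 1) * φ e)| < 1 / (4 * ((2 ^ (k + 5) : ℕ) : ℝ))}
    with hBad
  have hBadm : MeasurableSet Bad := by
    apply measurableSet_lt _ measurable_const
    exact ((Real.measurable_sin.comp ((phi_meas U N t).const_mul _))).abs
  refine ⟨m, hm, G \ Bad, Set.sdiff_subset, ?_, ?_⟩
  · refine (measure_mono ?_).trans hvol
    rintro e ⟨he1, he2⟩
    refine ⟨he1, ?_⟩
    by_contra hcon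
    exact he2 ⟨he1, hcon⟩
  · intro V' hp h1 h2
    refine ⟨hGm.diff hBadm, Set.sdiff_subset.trans hGs, ?_⟩
    rintro e ⟨he, heb⟩
    obtain ⟨z, w, hw, hz⟩ := hGb e he
    rw [← hρ] at hz
    rw [← hB] at hw
    obtain ⟨z₁, w₁, hw₁, hs, hfin⟩ := two_block U (fun n => a * V' n) e N (2 * m + 1) hN
      (Nat.succ_pos _) hUp (fun n => by simp only [hp n]) t ρ ρ B x z w hw
      (fun n h3 h4 => by simp only [hU, h1 n h3 h4])
      (fun n h3 h4 => by simp only [hU, h2 n h3 h4, ht]; ring) ht0.le hρ0 hz hx n1 hρ0 n2 hρ1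
    have hbig : ρ ≤ |((z * z₁) ^ (2 * m + 1)).im| := by
      rw [im_pow2 z z₁ hw.unit hw₁.unit hs]
      have e1 : z.re = (trp U N).eval e / 2 := by rw [trp_eval hw]; ring
      have e2 : z₁.re = (trp U N).eval (e - t) / 2 := by
        rw [trp_eval (bloch_shift hw₁)]; ring
      rw [e1, e2]
      simp only [hBad, Set.mem_ofPred_eq, not_lt] at heb
      have e3 : (1 : ℝ) / (4 * ((2 ^ (k + 5) : ℕ) : ℝ)) = ρ := by
        rw [hρ]
        push_cast
        rw [show k + 7 = (k + 5) + 2 by ring, pow_add _ (k + 5) 2]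
        norm_num
        ring
      rw [e3] at heb
      push_cast
      exact heb
    obtain ⟨z', w', hw', hz'⟩ := hfin hbig
    refine ⟨z', w', ?_, ?_⟩
    · exact ⟨hw'.eq, hw'.per, hw'.unit, hw'.wron, fun n => (hw'.bd n).trans n3⟩
    · refine le_trans (le_of_eq ?_) hz'
      rw [hρ, show k + 1 + 7 = (k + 7) + 1 by ring, pow_succ]
      field_simp

theorem good_zero : Good (1 / 2 ^ 33) (fun _ => 0) 1 0 (Set.Ioo (-1) 1) := by
  refine ⟨measurableSet_Ioo, le_rfl, ?_⟩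
  rintro e ⟨he1, he2⟩
  set s : ℝ := Real.sqrt (1 - (e / 2) ^ 2) with hs
  have hpos : (3 / 4 : ℝ) ≤ 1 - (e / 2) ^ 2 := by nlinarith
  have hs2 : s ^ 2 = 1 - (e / 2) ^ 2 := Real.sq_sqrt (by linarith)
  have hs0 : 0 ≤ s := Real.sqrt_nonneg _
  have hs1 : 1 / 2 ≤ s := by nlinarith
  have hspos : 0 < s := by linarith
  set z : ℂ := ((e / 2 : ℝ) : ℂ) + (s : ℂ) * I with hz
  have hzn : ‖z‖ = 1 := by
    have : ‖z‖ ^ 2 = 1 := by
      rw [Complex.sq_norm, hz, Complex.normSq_add_mul_I, hs2]; ring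
    have h0 : 0 ≤ ‖z‖ := norm_nonneg _
    nlinarith
  have hz0 : z ≠ 0 := by
    intro h
    rw [h, norm_zero] at hzn
    norm_num at hzn
  have hzim : z.im = s := by simp [hz]
  have hzz : z * z + 1 = (e : ℂ) * z := by
    have h1 : (s : ℂ) ^ 2 = 1 - ((e / 2 : ℝ) : ℂ) ^ 2 := by exact_mod_cast hs2
    rw [hz]
    push_cast at h1 ⊢
    linear_combination (-1 : ℂ) * h1 + (s : ℂ) ^ 2 * Complex.I_sq
  set c : ℝ := 1 / Real.sqrt s with hc
  have hc2 : c ^ 2 = 1 / s := by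
    rw [hc, div_pow, one_pow, Real.sq_sqrt hs0]
  refine ⟨z, fun n => (c : ℂ) * z ^ n, ⟨?_, ?_, hzn, ?_, ?_⟩, ?_⟩
  · intro n
    have e1 : z ^ (n + 1) = z ^ (n - 1) * (z * z) := by
      rw [show n + 1 = (n - 1) + 1 + 1 by ring, zpow_add_one₀ hz0, zpow_add_one₀ hz0]
      ring
    have e2 : z ^ n = z ^ (n - 1) * z := by
      rw [← zpow_add_one₀ hz0]
      congr 1
      ring
    rw [e1, e2]
    push_cast
    linear_combination ((c : ℂ) * z ^ (n - 1)) * hzz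
  · intro n
    rw [Nat.cast_one, zpow_add_one₀ hz0]
    ring
  · intro n
    have h1 : conj ((c : ℂ) * z ^ n) * ((c : ℂ) * z ^ (n + 1)) = ((c ^ 2 : ℝ) : ℂ) * z := by
      rw [zpow_add_one₀ hz0, map_mul, Complex.conj_ofReal]
      have h2 : conj (z ^ n) * z ^ n = 1 := by
        rw [mul_comm, Complex.mul_conj, Complex.normSq_eq_norm_sq, norm_zpow, hzn, one_zpow]
        simp
      push_cast
      linear_combination ((c : ℂ) * c * z) * h2
    rw [h1, Complex.im_ofReal_mul, hzim, hc2]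
    field_simp
  · intro n
    rw [norm_mul, norm_zpow, hzn, one_zpow, mul_one, Complex.norm_real, Real.norm_eq_abs, sq_abs,
      hc2, div_le_iff₀ hspos]
    norm_num
    linarith
  · rw [hzim, abs_of_pos hspos]
    refine le_trans ?_ hs1
    norm_num

end Pool.Agent.W810.LP
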