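import Pool.Agent.W810.LP.Barrier

set_option autoImplicit false

namespace Pool.Agent.W810.LP

open Filter Topology MeasureTheory Pool.Agent.Helper434.PSCplx Pool.Agent.H695R3.ST

/-- the spectrum of `Δ + V` is in the `κ`-neighbourhood of `C` -/
def Near (V : ℤ → ℝ) (C : Finset ℝ) (κ : ℝ) : Prop :=
  ∀ H : L2 →L[ℂ] L2, IsSchr V H → ∀ E ∈ spectrum ℝ H, ∃ c ∈ C, |c - E| ≤ κ

/-- the spectrum of `Δ + V` and its translate by `ε` are at distance `2 d` -/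
def Sep (V : ℤ → ℝ) (ε d : ℝ) : Prop :=
  ∀ H : L2 →L[ℂ] L2, IsSchr V H → ∀ E ∈ spectrum ℝ H, ∀ E' ∈ spectrum ℝ H, 2 * d ≤ |E - E' - ε|

lemma per_nat {V : ℤ → ℝ} {N : ℕ} (hV : ∀ n : ℤ, V (n + N) = V n) (n : ℤ) (j : ℕ) :
    V (n + ((j * N : ℕ) : ℤ)) = V n := by
  have := per_int hV n j
  rw [← this]
  congr 1
  push_cast
  ring

lemma per_emod {V : ℤ → ℝ} {M : ℕ} (hV : ∀ n : ℤ, V (n + M) = V n) (n : ℤ) : V (n % M) = V n := by
  rw [← per_int hV (n % M) (n / M)]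
  congr 1
  exact Int.emod_add_mul_ediv n M

lemma per_bdd {V : ℤ → ℝ} {N : ℕ} (hN : 0 < N) (hV : ∀ n : ℤ, V (n + N) = V n) :
    ∃ C, ∀ n, |V n| ≤ C := by
  refine ⟨∑ i ∈ Finset.range N, |V i|, fun n => ?_⟩
  have hN0 : (0 : ℤ) < N := by exact_mod_cast hN
  rw [← per_emod hV n]
  obtain ⟨r, hr⟩ : ∃ r : ℕ, (r : ℤ) = n % N :=
    ⟨(n % N).toNat, Int.toNat_of_nonneg (Int.emod_nonneg _ hN0.ne')⟩
  have hrN : r < N := by
    have := Int.emod_lt_of_pos n hN0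
    omega
  rw [← hr]
  exact Finset.single_le_sum (f := fun i : ℕ => |V i|) (fun i _ => abs_nonneg _)
    (Finset.mem_range.2 hrN)

theorem barrier_step (V V' : ℤ → ℝ) (N J : ℕ) (ε : ℝ) (hN : 0 < N) (hJ : 2 ≤ J)
    (hV : ∀ n : ℤ, V (n + N) = V n) (hV' : ∀ n : ℤ, V' (n + (2 * J * N : ℕ)) = V' n)
    (h1 : ∀ n : ℤ, 0 ≤ n → n < (J * N : ℕ) → V' n = V n)
    (h2 : ∀ n : ℤ, (J * N : ℕ) ≤ n → n < (2 * J * N : ℕ) → V' n = V n + ε) :
    ∃ C : Finset ℝ, C.card ≤ 2 * (2 * J * N) ∧ ∀ d : ℝ, 0 < d → d ≤ 1 → Sep V ε d →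
      Near V' C (11 / (d * (1 + d / 5) ^ (J * N / 2 - 1))) := by
  obtain ⟨L, hL⟩ : ∃ L : ℕ, L = J * N := ⟨_, rfl⟩
  obtain ⟨M, hM⟩ : ∃ M : ℕ, M = 2 * J * N := ⟨_, rfl⟩
  have hML : M = 2 * L := by rw [hM, hL]; ring
  have hL2 : 2 ≤ L := by
    rw [hL]
    calc 2 = 2 * 1 := by norm_num
      _ ≤ J * N := Nat.mul_le_mul hJ hN
  rw [← hM, ← hL] at h2
  rw [← hL] at h1
  rw [← hM] at hV' ⊢
  rw [← hL]
  have hVM : ∀ n : ℤ, V (n + M) = V n := by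
    intro n
    rw [hM]
    exact per_nat hV n (2 * J)
  have hM0 : (0 : ℤ) < M := by omega
  obtain ⟨C0, hC0, hC0'⟩ := barrier_one V V' M L 0 hL2 hML hV'
  obtain ⟨C1, hC1, hC1'⟩ := barrier_one V V' M L L hL2 hML hV'
  refine ⟨C0 ∪ C1, (Finset.card_union_le _ _).trans (by omega), ?_⟩
  intro d hd hd1 hsep H' hH' E hE
  obtain ⟨K, hK⟩ := per_bdd hN hV
  obtain ⟨K', hK'⟩ := per_bdd (show 0 < M by omega) hV'
  obtain ⟨H, hH, hHs⟩ := exists_schr hK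
  have hHs' := schr_sa hK' hH'
  by_cases hc : ∀ E' ∈ spectrum ℝ H, d ≤ |E - E'|
  · obtain ⟨c, hc1, hc2⟩ := hC0' H H' hH hH' hHs hHs' E E d hd hd1 (by
      intro n hn
      rw [sub_zero] at hn
      have hnn := Int.emod_nonneg n hM0.ne'
      rw [← per_emod hV' n, ← per_emod hVM n, h1 _ hnn (by omega)]) hc hE
    exact ⟨c, Finset.mem_union_left _ hc1, hc2⟩
  · push Not at hc
    obtain ⟨E0, hE0, hlt⟩ := hc
    have hdist : ∀ E' ∈ spectrum ℝ H, d ≤ |E - ε - E'| := by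
      intro E' hE'
      have h3 := hsep H hH E0 hE0 E' hE'
      have h4 : |E0 - E' - ε| ≤ |E - ε - E'| + |E - E0| := by
        have : E0 - E' - ε = (E - ε - E') - (E - E0) := by ring
        rw [this]
        exact abs_sub _ _
      linarith
    obtain ⟨c, hc1, hc2⟩ := hC1' H H' hH hH' hHs hHs' E (E - ε) d hd hd1 (by
      intro n hn
      have hnn := Int.emod_nonneg n hM0.ne'
      have hlt2 := Int.emod_lt_of_pos n hM0
      have hge : (L : ℤ) ≤ n % M := by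
        by_contra hcon
        push Not at hcon
        have e : (n - L) % M = n % M - L + M := by
          rw [← Int.emod_sub_emod, ← Int.add_emod_right]
          exact Int.emod_eq_of_lt (by omega) (by omega)
        rw [e] at hn
        omega
      rw [← per_emod hV' n, ← per_emod hVM n, h2 _ hge hlt2]
      ring) hdist hE
    exact ⟨c, Finset.mem_union_right _ hc1, hc2⟩

/-- choice of the next step height -/
theorem choose_eps (C : Finset ℝ) (κ tol : ℝ) (hκ : 0 ≤ κ)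
    (h : (C.card : ℝ) ^ 2 * (4 * κ) < tol) : ∃ ε : ℝ, 0 < ε ∧ ε ≤ tol ∧ ∃ d : ℝ, 0 < d ∧ d ≤ 1 ∧
      ∀ c ∈ C, ∀ c' ∈ C, 2 * κ + 2 * d ≤ |c - c' - ε| := by
  have hvol : volume (⋃ p ∈ C ×ˢ C, Set.Icc (p.1 - p.2 - 2 * κ) (p.1 - p.2 + 2 * κ)) <
      volume (Set.Ioc 0 tol) := by
    calc _ ≤ ∑ p ∈ C ×ˢ C, volume (Set.Icc (p.1 - p.2 - 2 * κ) (p.1 - p.2 + 2 * κ)) :=
          measure_biUnion_finset_le _ _
      _ = ∑ p ∈ C ×ˢ C, ENNReal.ofReal (4 * κ) := by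
          refine Finset.sum_congr rfl fun p _ => ?_
          rw [Real.volume_Icc]
          congr 1
          ring
      _ = ENNReal.ofReal ((C.card : ℝ) ^ 2 * (4 * κ)) := by
          rw [Finset.sum_const, Finset.card_product, nsmul_eq_mul,
            ENNReal.ofReal_mul (p := (C.card : ℝ) ^ 2) (by positivity), ← ENNReal.ofReal_natCast]
          congr 2
          push_cast
          ring
      _ < ENNReal.ofReal tol := by
          apply ENNReal.ofReal_lt_ofReal_iff'.2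
          refine ⟨h, ?_⟩
          refine lt_of_le_of_lt ?_ h
          positivity
      _ = _ := by rw [Real.volume_Ioc, sub_zero]
  have hex : ∃ ε ∈ Set.Ioc 0 tol, ε ∉ ⋃ p ∈ C ×ˢ C,
      Set.Icc (p.1 - p.2 - 2 * κ) (p.1 - p.2 + 2 * κ) := by
    by_contra hcon
    push Not at hcon
    exact absurd hvol (not_lt.2 (measure_mono hcon))
  obtain ⟨ε, hε, hε'⟩ := hex
  have hpos : ∀ p ∈ C ×ˢ C, 0 < |p.1 - p.2 - ε| - 2 * κ := by
    intro p hp
    by_contra hcon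
    push Not at hcon
    apply hε'
    simp only [Set.mem_iUnion]
    refine ⟨p, hp, ?_⟩
    have := abs_le.1 (show |p.1 - p.2 - ε| ≤ 2 * κ by linarith)
    constructor <;> linarith
  refine ⟨ε, hε.1, hε.2, ?_⟩
  have hd : ∃ d : ℝ, 0 < d ∧ d ≤ 1 ∧ ∀ p ∈ C ×ˢ C, 2 * d ≤ |p.1 - p.2 - ε| - 2 * κ := by
    rcases (C ×ˢ C).eq_empty_or_nonempty with he | hne
    · refine ⟨1, one_pos, le_rfl, ?_⟩
      rw [he]
      simp
    · obtain ⟨p0, hp0, hmin⟩ := Finset.exists_min_image (C ×ˢ C) (fun p => |p.1 - p.2 - ε| - 2 * κ) hne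
      refine ⟨min 1 ((|p0.1 - p0.2 - ε| - 2 * κ) / 2), lt_min one_pos (by linarith [hpos p0 hp0]),
        min_le_left _ _, fun p hp => ?_⟩
      have h1 := hmin p hp
      have h2 := min_le_right 1 ((|p0.1 - p0.2 - ε| - 2 * κ) / 2)
      linarith
  obtain ⟨d, hd0, hd1, hd2⟩ := hd
  refine ⟨d, hd0, hd1, fun c hc c' hc' => ?_⟩
  have := hd2 (c, c') (Finset.mem_product.2 ⟨hc, hc'⟩)
  simp only at this
  linarith

theorem sep_of_near {V : ℤ → ℝ} {C : Finset ℝ} {κ ε d : ℝ} (hN : Near V C κ)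
    (h : ∀ c ∈ C, ∀ c' ∈ C, 2 * κ + 2 * d ≤ |c - c' - ε|) : Sep V ε d := by
  intro H hH E hE E' hE'
  obtain ⟨c, hc, h1⟩ := hN H hH E hE
  obtain ⟨c', hc', h2⟩ := hN H hH E' hE'
  have h3 := h c hc c' hc'
  have h4 : |c - c' - ε| ≤ |E - E' - ε| + |c - E| + |c' - E'| := by
    have : c - c' - ε = (E - E' - ε) + (c - E) + -(c' - E') := by ring
    rw [this]
    refine (abs_add_three _ _ _).trans ?_
    rw [abs_neg]
  linarith

/-- the number of blocks -/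
theorem large_J (N : ℕ) (hN : 0 < N) (d : ℝ) (hd : 0 < d) (K : ℝ) : ∃ J0 : ℕ, ∀ J : ℕ, J0 ≤ J →
    K * ((2 * J * N : ℕ) : ℝ) ^ 3 * (11 / (d * (1 + d / 5) ^ (J * N / 2 - 1))) < 1 := by
  have hr : (1 : ℝ) < 1 + d / 5 := by linarith
  have h1 := (tendsto_pow_const_div_const_pow_of_one_lt 3 hr).const_mul (|K| * 1000 * (11 / d))
  rw [mul_zero] at h1
  obtain ⟨y0, hy0⟩ := eventually_atTop.1 (h1.eventually (gt_mem_nhds (show (0 : ℝ) < 1 by norm_num)))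
  refine ⟨2 * (y0 + 3), fun J hJ => ?_⟩
  set y := J * N / 2 - 1 with hy
  have hJN : J ≤ J * N := Nat.le_mul_of_pos_right J hN
  have h2 := hy0 y (by omega)
  have hy1 : 1 ≤ y := by omega
  have h3 : 2 * J * N ≤ 10 * y := by
    have : 2 * J * N = 2 * (J * N) := by ring
    omega
  have h4 : ((2 * J * N : ℕ) : ℝ) ≤ 10 * (y : ℝ) := by exact_mod_cast h3
  have hp : 0 < (1 + d / 5) ^ y := by positivity
  have h5 : ((2 * J * N : ℕ) : ℝ) ^ 3 ≤ 1000 * (y : ℝ) ^ 3 := by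
    calc ((2 * J * N : ℕ) : ℝ) ^ 3 ≤ (10 * (y : ℝ)) ^ 3 := by gcongr
      _ = _ := by ring
  calc K * ((2 * J * N : ℕ) : ℝ) ^ 3 * (11 / (d * (1 + d / 5) ^ y))
      ≤ |K| * (1000 * (y : ℝ) ^ 3) * (11 / (d * (1 + d / 5) ^ y)) := by
        gcongr
        exact le_abs_self K
    _ = |K| * 1000 * (11 / d) * ((y : ℝ) ^ 3 / (1 + d / 5) ^ y) := by
        field_simp
    _ < 1 := h2

end Pool.Agent.W810.LP
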