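import Pool.Agent.H285R3.Step508

set_option autoImplicit false

/-!
# Bloch solutions of two-block potentials
-/

namespace Pool.Agent.W810.LP

open Complex Pool.Agent.H508R3 Pool.Agent.H285R3.Step508 ComplexConjugate

/-- the eigenvector of an elliptic `SU(1,1)` matrix with information on the eigenvalue -/
theorem eig' (p q : ℂ) (h1 : ‖p‖ ^ 2 - ‖q‖ ^ 2 = 1) (h2 : ‖q‖ < |p.im|) :
    ∃ z x y : ℂ, ‖z‖ = 1 ∧ z.re = p.re ∧ 0 < z.im * p.im ∧ |p.im| - ‖q‖ ≤ |z.im| ∧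
      p * x + q * y = z * x ∧ conj q * x + conj p * y = z * y ∧
      ‖x‖ ^ 2 - ‖y‖ ^ 2 = 1 ∧ (‖x‖ + ‖y‖) ^ 2 * (|p.im| - ‖q‖) ≤ |p.im| + ‖q‖ := by
  obtain ⟨z, x, y, a1, a2, a3, a4, a5⟩ := eig p q h1 h2
  have hx : ‖x‖ ^ 2 = x.re ^ 2 + x.im ^ 2 := by
    rw [Complex.sq_norm, Complex.normSq_apply]; ring
  have hy : ‖y‖ ^ 2 = y.re ^ 2 + y.im ^ 2 := by
    rw [Complex.sq_norm, Complex.normSq_apply]; ring
  have hz : z = conj x * (p * x + q * y) - conj y * (conj q * x + conj p * y) := by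
    rw [a2, a3]
    have : conj x * x - conj y * y = 1 := by
      rw [mul_comm (conj x), mul_comm (conj y), Complex.mul_conj, Complex.mul_conj,
        Complex.normSq_eq_norm_sq, Complex.normSq_eq_norm_sq]
      exact_mod_cast a4
    linear_combination (-z) * this
  have hre : z.re = p.re := by
    have h := congrArg Complex.re hz
    simp only [Complex.sub_re, Complex.mul_re, Complex.add_re, Complex.add_im, Complex.mul_im,
      Complex.conj_re, Complex.conj_im] at h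
    rw [hx, hy] at a4
    linear_combination h + p.re * a4
  have him : z.im = p.im * (‖x‖ ^ 2 + ‖y‖ ^ 2) + 2 * (conj x * q * y).im := by
    have h := congrArg Complex.im hz
    simp only [Complex.mul_re, Complex.add_re, Complex.add_im, Complex.mul_im,
      Complex.conj_re, Complex.conj_im, Complex.sub_im] at h
    simp only [Complex.mul_re, Complex.mul_im, Complex.conj_re, Complex.conj_im]
    rw [hx, hy]
    linear_combination h
  have hb : |2 * (conj x * q * y).im| ≤ ‖q‖ * (‖x‖ ^ 2 + ‖y‖ ^ 2) := by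
    rw [abs_mul, abs_of_pos (by norm_num : (0 : ℝ) < 2)]
    have h3 := Complex.abs_im_le_norm (conj x * q * y)
    rw [norm_mul, norm_mul, RCLike.norm_conj] at h3
    have h4 := sq_nonneg (‖x‖ - ‖y‖)
    nlinarith [norm_nonneg q, mul_nonneg (norm_nonneg q) h4]
  have hs : 1 ≤ ‖x‖ ^ 2 + ‖y‖ ^ 2 := by nlinarith [sq_nonneg ‖y‖]
  have hb' := abs_le.1 hb
  refine ⟨z, x, y, a1, hre, ?_, ?_, a2, a3, a4, a5⟩
  · rcases le_or_gt 0 p.im with h | h
    · rw [abs_of_nonneg h] at h2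
      have hp : 0 < p.im := lt_of_le_of_lt (norm_nonneg _) h2
      have : 0 < z.im := by
        rw [him]
        nlinarith [mul_pos (sub_pos.2 h2) (lt_of_lt_of_le one_pos hs)]
      positivity
    · rw [abs_of_neg h] at h2
      have : z.im < 0 := by
        rw [him]
        nlinarith [mul_pos (sub_pos.2 h2) (lt_of_lt_of_le one_pos hs)]
      exact mul_pos_of_neg_of_neg this h
  · rcases le_or_gt 0 p.im with h | h
    · rw [abs_of_nonneg h] at h2 ⊢
      refine le_trans ?_ (le_abs_self _)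
      rw [him]
      nlinarith [mul_nonneg (sub_pos.2 h2).le (sub_nonneg.2 hs)]
    · rw [abs_of_neg h] at h2 ⊢
      refine le_trans ?_ (neg_le_abs _)
      rw [him]
      nlinarith [mul_nonneg (sub_pos.2 h2).le (sub_nonneg.2 hs)]

/-- from an elliptic monodromy to a Bloch solution -/
theorem mono_bloch {U : ℤ → ℝ} {E : ℝ} {u : ℤ → ℂ} (hu : Sol U E u) (M : ℕ)
    (hU : ∀ n : ℤ, U (n + M) = U n) (k : ℤ) (hwr : (conj (u k) * u (k + 1)).im = 1) (p q : ℂ)
    (h0 : u (k + M) = p * u k + conj q * conj (u k))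
    (h1 : u (k + 1 + M) = p * u (k + 1) + conj q * conj (u (k + 1))) (hq : ‖q‖ < |p.im|) :
    ∃ z X Y : ℂ, ‖z‖ = 1 ∧ z.re = p.re ∧ 0 < z.im * p.im ∧ |p.im| - ‖q‖ ≤ |z.im| ∧
      ‖X‖ ^ 2 - ‖Y‖ ^ 2 = 1 ∧ (‖X‖ + ‖Y‖) ^ 2 * (|p.im| - ‖q‖) ≤ |p.im| + ‖q‖ ∧
      Sol U E (fun n => X * u n + Y * conj (u n)) ∧
      (∀ n : ℤ, X * u (n + M) + Y * conj (u (n + M)) = z * (X * u n + Y * conj (u n))) ∧
      (∀ n : ℤ, (conj (X * u n + Y * conj (u n)) *
        (X * u (n + 1) + Y * conj (u (n + 1)))).im = 1) := by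
  have hpq : ‖p‖ ^ 2 - ‖q‖ ^ 2 = 1 := by
    have h2 := wron_comb p (conj q) (u k) (u (k + 1)) hwr
    rw [← h0, ← h1, RCLike.norm_conj] at h2
    have h3 := wron_const hu k (k + M)
    rw [show k + (M : ℤ) + 1 = k + 1 + M by ring, h2, hwr] at h3
    exact h3
  obtain ⟨z, X, Y, e1, e2, e3, e4, e5, e6, e7, e8⟩ := eig' p q hpq hq
  have hsol : Sol U E (fun n => X * u n + Y * conj (u n)) := hu.comb hu.conj X Y
  refine ⟨z, X, Y, e1, e2, e3, e4, e7, e8, hsol, ?_, ?_⟩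
  · intro n
    have hs1 : Sol U E (fun n => X * u (n + M) + Y * conj (u (n + M))) := by
      intro n
      have := hsol (n + M)
      have e1 : n + (M : ℤ) + 1 = n + 1 + M := by ring
      have e2 : n + (M : ℤ) - 1 = n - 1 + M := by ring
      simp only [e1, e2, hU n] at this
      exact this
    have hs2 : Sol U E (fun n => z * (X * u n + Y * conj (u n))) := by
      intro n
      have := hsol n
      linear_combination z * this
    refine Sol.unique hs1 hs2 k ?_ ?_ n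
    · show X * u (k + M) + Y * conj (u (k + M)) = z * (X * u k + Y * conj (u k))
      rw [h0]
      simp only [map_mul, map_add, Complex.conj_conj]
      linear_combination (u k) * e5 + conj (u k) * e6
    · show X * u (k + 1 + M) + Y * conj (u (k + 1 + M)) =
        z * (X * u (k + 1) + Y * conj (u (k + 1)))
      rw [h1]
      simp only [map_mul, map_add, Complex.conj_conj]
      linear_combination (u (k + 1)) * e5 + conj (u (k + 1)) * e6
  · intro n
    have h2 := wron_const hsol k n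
    have h3 := wron_comb X Y (u k) (u (k + 1)) hwr
    rw [h3, e7] at h2
    exact h2

/-- a bound over a period is a bound everywhere -/
theorem bd_period {M : ℕ} (hM : 0 < M) {f : ℤ → ℂ} {z : ℂ} (hz : ‖z‖ = 1)
    (hper : ∀ n : ℤ, f (n + M) = z * f n) (k : ℤ) (B : ℝ)
    (h : ∀ j : ℕ, j < M → ‖f (k + j)‖ ^ 2 ≤ B) (n : ℤ) : ‖f n‖ ^ 2 ≤ B := by
  have hP : Function.Periodic (fun n : ℤ => ‖f n‖) (M : ℤ) := by
    intro n
    show ‖f (n + M)‖ = ‖f n‖
    rw [hper, norm_mul, hz, one_mul]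
  have hMpos : (0 : ℤ) < M := by exact_mod_cast hM
  have hdm : n = k + (n - k) % M + ((n - k) / M) * M := by
    have := Int.emod_add_mul_ediv (n - k) M
    linarith
  obtain ⟨r, hr⟩ : ∃ r : ℕ, (r : ℤ) = (n - k) % M :=
    ⟨((n - k) % M).toNat, Int.toNat_of_nonneg (Int.emod_nonneg _ hMpos.ne')⟩
  have hrM : r < M := by
    have := Int.emod_lt_of_pos (n - k) hMpos
    omega
  have h5 := hP.int_mul ((n - k) / M) (k + r)
  have h6 : k + (r : ℤ) + ((n - k) / M) * M = n := by rw [hr]; exact hdm.symm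
  simp only [Int.cast_id] at h5
  rw [h6] at h5
  rw [h5]
  exact h r hrM

/-- two solutions agree where the potentials do -/
theorem agree {U U' : ℤ → ℝ} {E : ℝ} {u v : ℤ → ℂ} (hu : Sol U E u) (hv : Sol U' E v) (k : ℤ)
    (M : ℕ) (h : ∀ j : ℕ, j < M → U (k + 1 + j) = U' (k + 1 + j)) (h0 : u k = v k)
    (h1 : u (k + 1) = v (k + 1)) (j : ℕ) (hj : j ≤ M) :
    u (k + j) = v (k + j) ∧ u (k + 1 + j) = v (k + 1 + j) := by
  induction j with
  | zero => simpa using ⟨h0, h1⟩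
  | succ j ih =>
    obtain ⟨a, b⟩ := ih (by omega)
    have e1 : k + ((j + 1 : ℕ) : ℤ) = k + 1 + j := by push_cast; ring
    have e2 : k + 1 + ((j + 1 : ℕ) : ℤ) = k + 1 + j + 1 := by push_cast; ring
    rw [e1, e2]
    refine ⟨b, ?_⟩
    have c1 := hu (k + 1 + j)
    have c2 := hv (k + 1 + j)
    have e3 : k + 1 + (j : ℤ) - 1 = k + j := by ring
    rw [e3, h j (by omega), a, b] at c1
    rw [e3] at c2
    linear_combination c1 - c2

/-- the shift of the potential by a small constant -/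
theorem shift_step (U : ℤ → ℝ) (E : ℝ) (N : ℕ) (hN : 0 < N) (hU : ∀ n : ℤ, U (n + N) = U n)
    (τ ρ B x : ℝ) (z : ℂ) (w : ℤ → ℂ) (hw : Bloch U E N z w B) (hτ : 0 ≤ τ) (hρ0 : 0 < ρ)
    (hρ1 : ρ ≤ |z.im|) (hx : x = N * (τ * B)) (hx1 : 16 * x ≤ ρ) (k : ℤ) :
    ∃ (z' X Y : ℂ) (w' : ℤ → ℂ), Bloch (fun n => U n + τ) E N z' w' (B * (1 + 32 * (x / ρ))) ∧
      0 < z'.im * z.im ∧ w' k = X * w k + Y * conj (w k) ∧
      w' (k + 1) = X * w (k + 1) + Y * conj (w (k + 1)) ∧ ‖X‖ ^ 2 - ‖Y‖ ^ 2 = 1 ∧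
      (‖X‖ + ‖Y‖) ^ 2 * (ρ - 2 * x) ≤ ρ + 2 * x := by
  have hws : Sol U E w := hw.eq
  have hB := hw.bd
  have hwr := hw.wron
  have hB0 : 0 ≤ B := le_trans (by positivity) (hB 0)
  obtain ⟨u, hu, hu0, hu1⟩ := Sol.ex (fun n => U n + τ) E k (w k) (w (k + 1))
  have hal : al w u k = 1 := by
    unfold al
    rw [hu0, hu1, div_eq_one_iff_eq two_I_ne]
    have := wr k (hwr k)
    linear_combination this
  have hbe : be w u k = 0 := by
    unfold be
    rw [hu0, hu1, mul_comm (w (k + 1)) (w k)]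
    simp
  have hc : ∀ j : ℕ, j ≤ N → ‖al w u (k + j) - 1‖ + ‖be w u (k + j)‖ ≤ (1 + τ * B) ^ j - 1 := by
    intro j hj
    exact step_centre hws hu hτ hB hwr k hal hbe N (fun i _ => rfl) j hj
  have hτB : 0 ≤ τ * B := by positivity
  have hx0 : 0 ≤ x := by rw [hx]; positivity
  have hρ2 : ρ ≤ 1 := by
    refine hρ1.trans ?_
    rw [← hw.unit]
    exact Complex.abs_im_le_norm _
  have hd : ∀ j : ℕ, j ≤ N → (1 + τ * B) ^ j ≤ 1 + 2 * x := by
    intro j hj
    have h1 : (1 + τ * B) ^ j ≤ (1 + τ * B) ^ N := pow_le_pow_right₀ (by linarith) hj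
    have h2 := pow_bd (τ * B) N hτB (by rw [← hx]; linarith)
    rw [← hx] at h2
    linarith
  obtain ⟨p0, hp0⟩ : ∃ p0 : ℂ, p0 = al w u (k + N) := ⟨_, rfl⟩
  obtain ⟨r0, hr0⟩ : ∃ r0 : ℂ, r0 = be w u (k + N) := ⟨_, rfl⟩
  have hpr : ‖p0 - 1‖ + ‖r0‖ ≤ 2 * x := by
    have h1 := hc N le_rfl
    have h2 := hd N le_rfl
    rw [← hp0, ← hr0] at h1
    linarith
  have hend0 : u (k + N) = p0 * (z * w k) + r0 * conj (z * w k) := by
    have := rep0 (u := u) (k + (N : ℤ)) (hwr _)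
    rw [← hp0, ← hr0, hw.per] at this
    exact this.symm
  have hend1 : u (k + 1 + N) = p0 * (z * w (k + 1)) + r0 * conj (z * w (k + 1)) := by
    have := rep1 (u := u) (k + (N : ℤ)) (hwr _)
    have e : k + (N : ℤ) + 1 = k + 1 + N := by ring
    rw [← hp0, ← hr0, e, hw.per] at this
    exact this.symm
  obtain ⟨p, hp⟩ : ∃ p : ℂ, p = z * p0 := ⟨_, rfl⟩
  obtain ⟨q, hq⟩ : ∃ q : ℂ, q = z * conj r0 := ⟨_, rfl⟩
  have hqn : ‖q‖ = ‖r0‖ := by rw [hq, norm_mul, hw.unit, one_mul, RCLike.norm_conj]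
  have hdiff : |z.im - p.im| ≤ ‖p0 - 1‖ := by
    have h2 : |z.im - p.im| ≤ ‖z - p‖ := by
      rw [← Complex.sub_im]; exact Complex.abs_im_le_norm _
    have h3 : ‖z - p‖ = ‖p0 - 1‖ := by
      have : z - p = -(z * (p0 - 1)) := by rw [hp]; ring
      rw [this, norm_neg, norm_mul, hw.unit, one_mul]
    linarith
  have hpim : ρ - ‖p0 - 1‖ ≤ |p.im| := by
    have h1 : |z.im| - |p.im| ≤ |z.im - p.im| := abs_sub_abs_le_abs_sub _ _
    linarith
  have hr0n : 0 ≤ ‖r0‖ := norm_nonneg _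
  have hp1n : 0 ≤ ‖p0 - 1‖ := norm_nonneg _
  have hsign : 0 < p.im * z.im := by
    have h1 := abs_le.1 hdiff
    rcases le_or_gt 0 z.im with h | h
    · rw [abs_of_nonneg h] at hρ1
      have : 0 < p.im := by linarith
      have : 0 < z.im := by linarith
      positivity
    · rw [abs_of_neg h] at hρ1
      have : p.im < 0 := by linarith
      exact mul_pos_of_neg_of_neg this h
  have hU' : ∀ n : ℤ, (fun n => U n + τ) (n + N) = (fun n => U n + τ) n := by
    intro n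
    simp only [hU n]
  obtain ⟨z', X, Y, e1, e2, e3, e4, e5, e6, e7, e8, e9⟩ := mono_bloch hu N hU' k
    (by rw [hu0, hu1]; exact hwr k) p q
    (by rw [hend0, hu0, hp, hq]; simp only [map_mul, Complex.conj_conj]; ring)
    (by rw [hend1, hu1, hp, hq]; simp only [map_mul, Complex.conj_conj]; ring)
    (by rw [hqn]; linarith)
  have hS : (‖X‖ + ‖Y‖) ^ 2 * (ρ - 2 * x) ≤ ρ + 2 * x := by
    have hS1 : 1 ≤ (‖X‖ + ‖Y‖) ^ 2 := by
      rw [← e5]
      nlinarith [norm_nonneg X, norm_nonneg Y, mul_nonneg (norm_nonneg X) (norm_nonneg Y),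
        sq_nonneg ‖Y‖]
    rw [hqn] at e6
    have h1 : ρ - 2 * x ≤ |p.im| - ‖r0‖ := by linarith
    have h2 : ((‖X‖ + ‖Y‖) ^ 2 - 1) * (ρ - 2 * x)
        ≤ ((‖X‖ + ‖Y‖) ^ 2 - 1) * (|p.im| - ‖r0‖) := by
      apply mul_le_mul_of_nonneg_left h1; linarith
    have h3 : ‖r0‖ ≤ 2 * x := by linarith
    nlinarith
  have hS0 : 0 ≤ (‖X‖ + ‖Y‖) ^ 2 := by positivity
  have hnum := numeric x ρ _ hx0 hx1 hρ0 hρ2 hS0 hS
  refine ⟨z', X, Y, fun n => X * u n + Y * conj (u n), ⟨e7, e8, e1, e9, ?_⟩, ?_, ?_, ?_, e5, hS⟩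
  · apply bd_period hN e1 e8 k
    intro j hj
    have h0 : ‖al w u (k + j)‖ + ‖be w u (k + j)‖ ≤ 1 + 2 * x := by
      have h1 := hc j hj.le
      have h2 := hd j hj.le
      have h3 : ‖al w u (k + j)‖ ≤ 1 + ‖al w u (k + j) - 1‖ := by
        have := norm_add_le (1 : ℂ) (al w u (k + j) - 1)
        simpa using this
      linarith
    have h1 : ‖u (k + j)‖ ≤ (1 + 2 * x) * ‖w (k + j)‖ := by
      rw [← rep0 (u := u) (k + j) (hwr _)]
      refine (norm_add_le _ _).trans ?_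
      rw [norm_mul, norm_mul, RCLike.norm_conj, ← add_mul]
      exact mul_le_mul_of_nonneg_right h0 (norm_nonneg _)
    have h2 : ‖X * u (k + j) + Y * conj (u (k + j))‖
        ≤ (‖X‖ + ‖Y‖) * ((1 + 2 * x) * ‖w (k + j)‖) := by
      refine (norm_add_le _ _).trans ?_
      rw [norm_mul, norm_mul, RCLike.norm_conj, ← add_mul]
      exact mul_le_mul_of_nonneg_left h1 (by positivity)
    calc ‖X * u (k + j) + Y * conj (u (k + j))‖ ^ 2
        ≤ ((‖X‖ + ‖Y‖) * ((1 + 2 * x) * ‖w (k + j)‖)) ^ 2 := by gcongr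
      _ = ((‖X‖ + ‖Y‖) ^ 2 * (1 + 2 * x) ^ 2) * ‖w (k + j)‖ ^ 2 := by ring
      _ ≤ (1 + 32 * (x / ρ)) * B := by
          have := hB (k + j)
          gcongr
      _ = B * (1 + 32 * (x / ρ)) := by ring
  · -- sign
    have h1 : 0 < (z'.im * p.im) * (p.im * z.im) := mul_pos e3 hsign
    have h2 : 0 < p.im ^ 2 := by
      have : p.im ≠ 0 := by rintro h; rw [h] at hsign; simp at hsign
      positivity
    have h3 : (z'.im * p.im) * (p.im * z.im) = (z'.im * z.im) * p.im ^ 2 := by ring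
    rw [h3] at h1
    exact pos_of_mul_pos_left h1 h2.le
  · simp only [hu0]
  · simp only [hu1]

end Pool.Agent.W810.LP
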