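import Pool.Agent.H695R3.ST.Trunc

set_option autoImplicit false

namespace Pool.Agent.W810.LP

open Filter Topology Pool.Agent.Helper434.PSCplx Pool.Agent.H695R3.ST

lemma sub_apply' {V : ℤ → ℝ} {H : L2 →L[ℂ] L2} (hH : IsSchr V H) (E : ℝ) (φ : L2) (n : ℤ) :
    (H φ - (E : ℂ) • φ) n = φ (n + 1) + φ (n - 1) + ((V n - E : ℝ) : ℂ) * φ n := by
  rw [lp.coeFn_sub, Pi.sub_apply, lp.coeFn_smul, Pi.smul_apply, smul_eq_mul, hH]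
  push_cast
  ring

/-- distance to the spectrum gives a lower bound -/
theorem gap_of_dist {X : Type} [NormedAddCommGroup X] [InnerProductSpace ℂ X] [CompleteSpace X]
    {H : X →L[ℂ] X} (hH : IsSelfAdjoint H) {E d : ℝ}
    (h : ∀ E' ∈ spectrum ℝ H, d ≤ |E - E'|) (φ : X) : d * ‖φ‖ ≤ ‖H φ - (E : ℂ) • φ‖ := by
  by_contra hcon
  push Not at hcon
  have hφ : φ ≠ 0 := by
    rintro rfl
    simp at hcon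
  have hφ0 : 0 < ‖φ‖ := norm_pos_iff.2 hφ
  obtain ⟨E', hE', h1⟩ := weyl_bwd hH (E := E) (η := ‖H φ - (E : ℂ) • φ‖ / ‖φ‖) hφ
    (by rw [div_mul_cancel₀ _ hφ0.ne'])
  have h2 := h E' hE'
  have h3 : ‖H φ - (E : ℂ) • φ‖ / ‖φ‖ < d := by rwa [div_lt_iff₀ hφ0]
  linarith

lemma sq_norm_three (a b c : ℂ) (A B C : ℝ) (ha : ‖a‖ ≤ A) (hb : ‖b‖ ≤ B) (hc : ‖c‖ ≤ C) :
    ‖a + b + c‖ ^ 2 ≤ 3 * A ^ 2 + 3 * B ^ 2 + 3 * C ^ 2 := by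
  have h1 : ‖a + b + c‖ ≤ A + B + C := by
    have := norm_add₃_le (a := a) (b := b) (c := c)
    linarith
  have h2 := pow_le_pow_left₀ (norm_nonneg _) h1 2
  nlinarith [sq_nonneg (A - B), sq_nonneg (B - C), sq_nonneg (A - C)]

/-- tunnelling: an approximate eigenvector is small deep inside a barrier -/
theorem tunnel {V V' : ℤ → ℝ} {H H' : L2 →L[ℂ] L2} (hH : IsSchr V H) (hH' : IsSchr V' H')
    (E F d δ Q η : ℝ) (χ : ℤ → ℝ) (hd : 0 < d)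
    (hgap : ∀ φ : L2, d * ‖φ‖ ≤ ‖H φ - (F : ℂ) • φ‖) (hχ0 : ∀ n, 0 ≤ χ n) (hχQ : ∀ n, χ n ≤ Q)
    (hsupp : ∀ n, χ n ≠ 0 → V' n - E = V n - F)
    (hadj1 : ∀ n, |χ (n + 1) - χ n| ≤ δ * χ (n + 1) + 1)
    (hadj2 : ∀ n, |χ (n - 1) - χ n| ≤ δ * χ (n - 1) + 1) (hδ0 : 0 ≤ δ) (hδ : 5 * δ ≤ d)
    (ψ φ : L2) (hψ : ‖H' ψ - (E : ℂ) • ψ‖ ≤ η * ‖ψ‖) (hη : 0 ≤ η) (hQη : 2 * (Q * η) ≤ 1)
    (hφ : ∀ n, φ n = (χ n : ℂ) * ψ n) : d ^ 2 * ‖φ‖ ^ 2 ≤ 26 * ‖ψ‖ ^ 2 := by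
  set g : L2 := H' ψ - (E : ℂ) • ψ with hg
  have hQ0 : 0 ≤ Q := (hχ0 0).trans (hχQ 0)
  have hval : ∀ n, (H φ - (F : ℂ) • φ) n = (χ n : ℂ) * g n +
      ((χ (n + 1) - χ n : ℝ) : ℂ) * ψ (n + 1) + ((χ (n - 1) - χ n : ℝ) : ℂ) * ψ (n - 1) := by
    intro n
    rw [sub_apply' hH, hg, sub_apply' hH', hφ, hφ, hφ]
    by_cases h0 : χ n = 0
    · rw [h0]; push_cast; ring
    · rw [hsupp n h0]; push_cast; ring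
  have hpt : ∀ n, ‖(H φ - (F : ℂ) • φ) n‖ ^ 2 ≤ 3 * Q ^ 2 * ‖g n‖ ^ 2 +
      (6 * δ ^ 2 * ‖φ (n + 1)‖ ^ 2 + 6 * ‖ψ (n + 1)‖ ^ 2) +
      (6 * δ ^ 2 * ‖φ (n + -1)‖ ^ 2 + 6 * ‖ψ (n + -1)‖ ^ 2) := by
    intro n
    rw [hval]
    have hφn : ∀ m, ‖φ m‖ = χ m * ‖ψ m‖ := by
      intro m
      rw [hφ, norm_mul, Complex.norm_real, Real.norm_of_nonneg (hχ0 m)]
    have h1 : ‖(χ n : ℂ) * g n‖ ≤ Q * ‖g n‖ := by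
      rw [norm_mul, Complex.norm_real, Real.norm_of_nonneg (hχ0 n)]
      exact mul_le_mul_of_nonneg_right (hχQ n) (norm_nonneg _)
    have h2 : ‖((χ (n + 1) - χ n : ℝ) : ℂ) * ψ (n + 1)‖ ≤ δ * ‖φ (n + 1)‖ + ‖ψ (n + 1)‖ := by
      rw [norm_mul, Complex.norm_real, Real.norm_eq_abs, hφn]
      calc |χ (n + 1) - χ n| * ‖ψ (n + 1)‖ ≤ (δ * χ (n + 1) + 1) * ‖ψ (n + 1)‖ :=
            mul_le_mul_of_nonneg_right (hadj1 n) (norm_nonneg _)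
        _ = _ := by ring
    have h3 : ‖((χ (n - 1) - χ n : ℝ) : ℂ) * ψ (n - 1)‖ ≤ δ * ‖φ (n - 1)‖ + ‖ψ (n - 1)‖ := by
      rw [norm_mul, Complex.norm_real, Real.norm_eq_abs, hφn]
      calc |χ (n - 1) - χ n| * ‖ψ (n - 1)‖ ≤ (δ * χ (n - 1) + 1) * ‖ψ (n - 1)‖ :=
            mul_le_mul_of_nonneg_right (hadj2 n) (norm_nonneg _)
        _ = _ := by ring
    have h4 := sq_norm_three _ _ _ _ _ _ h1 h2 h3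
    rw [← sub_eq_add_neg]
    nlinarith [sq_nonneg (δ * ‖φ (n + 1)‖ - ‖ψ (n + 1)‖), sq_nonneg (δ * ‖φ (n - 1)‖ - ‖ψ (n - 1)‖)]
  have hsum := (((hasSum_sq g).mul_left (3 * Q ^ 2)).add
    (((hasSum_shift φ 1).mul_left (6 * δ ^ 2)).add ((hasSum_shift ψ 1).mul_left 6))).add
    (((hasSum_shift φ (-1)).mul_left (6 * δ ^ 2)).add ((hasSum_shift ψ (-1)).mul_left 6))
  have h1 := hasSum_le hpt (hasSum_sq _) hsum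
  have h2 := hgap φ
  have h3 : d ^ 2 * ‖φ‖ ^ 2 ≤ ‖H φ - (F : ℂ) • φ‖ ^ 2 := by
    rw [← mul_pow]
    exact pow_le_pow_left₀ (by positivity) h2 2
  have h4 : ‖g‖ ^ 2 ≤ η ^ 2 * ‖ψ‖ ^ 2 := by
    rw [← mul_pow]
    exact pow_le_pow_left₀ (norm_nonneg _) hψ 2
  have h5 : Q ^ 2 * ‖g‖ ^ 2 ≤ (1 / 4) * ‖ψ‖ ^ 2 := by
    have e1 : (Q * η) ^ 2 ≤ (1 / 2) ^ 2 := pow_le_pow_left₀ (by positivity) (by linarith) 2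
    calc Q ^ 2 * ‖g‖ ^ 2 ≤ Q ^ 2 * (η ^ 2 * ‖ψ‖ ^ 2) := by gcongr
      _ = (Q * η) ^ 2 * ‖ψ‖ ^ 2 := by ring
      _ ≤ (1 / 2) ^ 2 * ‖ψ‖ ^ 2 := by gcongr
      _ = _ := by norm_num
  have h6 : δ ^ 2 * ‖φ‖ ^ 2 ≤ (d ^ 2 / 25) * ‖φ‖ ^ 2 := by
    have : δ ^ 2 ≤ d ^ 2 / 25 := by
      have := pow_le_pow_left₀ (by positivity) hδ 2
      nlinarith
    gcongr
  nlinarith

end Pool.Agent.W810.LP
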