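import Pool.Agent.W810.LP.Mono

set_option autoImplicit false

namespace Pool.Agent.W810.LP

open Complex Pool.Agent.H508R3 Pool.Agent.H285R3.Step508 ComplexConjugate

theorem small_y (a b ρ x : ℝ) (ha : 0 ≤ a) (hb : 0 ≤ b) (hab : a ^ 2 - b ^ 2 = 1) (hρ : 0 < ρ)
    (hx0 : 0 ≤ x) (hx : 16 * x ≤ ρ) (h : (a + b) ^ 2 * (ρ - 2 * x) ≤ ρ + 2 * x) :
    (a + b) ^ 2 ≤ 1 + 5 * (x / ρ) ∧ 2 * (a * b) ≤ 5 * (x / ρ) ∧ 2 * b ^ 2 ≤ 5 * (x / ρ) := by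
  set ξ := x / ρ with hξ
  have hxρ : x = ξ * ρ := by rw [hξ]; field_simp
  have hξ0 : 0 ≤ ξ := by positivity
  have hξ1 : ξ ≤ 1 / 16 := by
    rw [hξ, div_le_iff₀ hρ]; linarith
  have h1 : (a + b) ^ 2 * (1 - 2 * ξ) ≤ 1 + 2 * ξ := by
    have : (a + b) ^ 2 * (1 - 2 * ξ) * ρ ≤ (1 + 2 * ξ) * ρ := by
      rw [hxρ] at h
      nlinarith
    exact le_of_mul_le_mul_right this hρ
  have h2 : (a + b) ^ 2 ≤ 1 + 5 * ξ := by
    by_contra hcon
    push Not at hcon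
    have : (1 + 5 * ξ) * (1 - 2 * ξ) < (a + b) ^ 2 * (1 - 2 * ξ) := by
      apply mul_lt_mul_of_pos_right hcon; linarith
    nlinarith
  refine ⟨h2, ?_, ?_⟩
  · nlinarith [sq_nonneg b]
  · have h3 : b ≤ a := by nlinarith
    nlinarith [mul_le_mul_of_nonneg_left h3 hb]

/-- two blocks -/
theorem two_block (U U' : ℤ → ℝ) (E : ℝ) (N J : ℕ) (hN : 0 < N) (hJ : 0 < J)
    (hU : ∀ n : ℤ, U (n + N) = U n) (hU' : ∀ n : ℤ, U' (n + (2 * J * N : ℕ)) = U' n)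
    (τ ρ ρ' B x : ℝ) (z : ℂ) (w : ℤ → ℂ) (hw : Bloch U E N z w B)
    (h1 : ∀ n : ℤ, 0 ≤ n → n < (J * N : ℕ) → U' n = U n)
    (h2 : ∀ n : ℤ, (J * N : ℕ) ≤ n → n < (2 * J * N : ℕ) → U' n = U n + τ)
    (hτ : 0 ≤ τ) (hρ0 : 0 < ρ) (hρ1 : ρ ≤ |z.im|) (hx : x = N * (τ * B)) (hx1 : 16 * x ≤ ρ)
    (hρ' : 0 < ρ') (hx2 : 100 * (x / ρ) ≤ ρ') (hρ'1 : ρ' ≤ 1) :
    ∃ (z₁ : ℂ) (w₁ : ℤ → ℂ), Bloch (fun n => U n + τ) E N z₁ w₁ (B * (1 + 32 * (x / ρ))) ∧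
      0 < z₁.im * z.im ∧
      (ρ' ≤ |((z * z₁) ^ J).im| → ∃ (z' : ℂ) (w' : ℤ → ℂ),
        Bloch U' E (2 * J * N) z' w' (B * (1 + 70 * (x / ρ / ρ'))) ∧ ρ' / 2 ≤ |z'.im|) := by
  obtain ⟨z₁, X, Y, w₁, hw₁, hs, hX0, hX1, hXY, hXYs⟩ :=
    shift_step U E N hN hU τ ρ B x z w hw hτ hρ0 hρ1 hx hx1 (-1)
  rw [show (-1 : ℤ) + 1 = 0 by ring] at hX1
  refine ⟨z₁, w₁, hw₁, hs, fun hbig => ?_⟩
  have hws : Sol U E w := hw.eq
  have hws₁ : Sol (fun n => U n + τ) E w₁ := hw₁.eq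
  have hB0 : 0 ≤ B := le_trans (by positivity) (hw.bd 0)
  have hx0 : 0 ≤ x := by rw [hx]; positivity
  obtain ⟨hsm1, hsm2, hsm3⟩ := small_y ‖X‖ ‖Y‖ ρ x (norm_nonneg _) (norm_nonneg _) hXY hρ0 hx0 hx1
    hXYs
  set ξ := x / ρ with hξ
  have hξ0 : 0 ≤ ξ := by positivity
  obtain ⟨L, hL⟩ : ∃ L : ℕ, L = J * N := ⟨_, rfl⟩
  have hLpos : 0 < L := by rw [hL]; positivity
  obtain ⟨M, hM⟩ : ∃ M : ℕ, M = 2 * J * N := ⟨_, rfl⟩
  have hML : M = L + L := by rw [hM, hL]; ring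
  rw [← hL] at h1 h2
  rw [← hM] at h2 hU' ⊢
  obtain ⟨ζ, hζ⟩ : ∃ ζ : ℂ, ζ = z ^ J := ⟨_, rfl⟩
  obtain ⟨ζ₁, hζ₁⟩ : ∃ ζ₁ : ℂ, ζ₁ = z₁ ^ J := ⟨_, rfl⟩
  have hζn : ‖ζ‖ = 1 := by rw [hζ, norm_pow, hw.unit, one_pow]
  have hζ₁n : ‖ζ₁‖ = 1 := by rw [hζ₁, norm_pow, hw₁.unit, one_pow]
  have hwL : ∀ n : ℤ, w (n + (L : ℤ)) = ζ * w n := by
    intro n
    have := per_pow hw.per J n
    rw [← hL] at this
    rw [this, hζ]
  have hwL₁ : ∀ n : ℤ, w₁ (n + (L : ℤ)) = ζ₁ * w₁ n := by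
    intro n
    have := per_pow hw₁.per J n
    rw [← hL] at this
    rw [this, hζ₁]
  have hXYc : X * conj X - Y * conj Y = 1 := by
    rw [Complex.mul_conj, Complex.mul_conj, Complex.normSq_eq_norm_sq, Complex.normSq_eq_norm_sq]
    exact_mod_cast hXY
  -- the solution
  obtain ⟨u, hu, hu0, hu1⟩ := Sol.ex U' E (-1) (w (-1)) (w 0)
  rw [show (-1 : ℤ) + 1 = 0 by ring] at hu1
  have hblock1 : ∀ j : ℕ, j ≤ L → u (-1 + j) = w (-1 + j) ∧ u (-1 + 1 + j) = w (-1 + 1 + j) := by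
    intro j hj
    refine agree hu hws (-1) L (fun i hi => ?_) hu0 (by simpa using hu1) j hj
    exact h1 _ (by omega) (by omega)
  -- the solution in the second block
  set v : ℤ → ℂ := fun n => ζ * (conj X * w₁ (n - L) + -(Y * conj (w₁ (n - L)))) with hv
  have hUL : ∀ n : ℤ, U (n + L) = U n := by
    intro n
    rw [hL]
    have : ∀ j : ℕ, U (n + ((j * N : ℕ) : ℤ)) = U n := by
      intro j
      induction j with
      | zero => simp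
      | succ j ih =>
        have e : n + (((j + 1) * N : ℕ) : ℤ) = n + ((j * N : ℕ) : ℤ) + N := by push_cast; ring
        rw [e, hU, ih]
    exact this J
  have hvs : Sol (fun n => U n + τ) E v := by
    intro n
    have a1 := hws₁ (n - L)
    have a2 := hws₁.conj (n - L)
    have e1 : n - (L : ℤ) + 1 = n + 1 - L := by ring
    have e2 : n - (L : ℤ) - 1 = n - 1 - L := by ring
    have e3 : U (n - L) = U n := by
      have := hUL (n - L)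
      rw [sub_add_cancel] at this
      exact this.symm
    simp only [e1, e2, e3] at a1 a2
    simp only [hv]
    linear_combination (ζ * conj X) * a1 - (ζ * Y) * a2
  have hv0 : u (-1 + L) = v (-1 + L) := by
    rw [(hblock1 L le_rfl).1, hwL]
    simp only [hv]
    rw [show (-1 : ℤ) + L - L = -1 by ring, hX0]
    simp only [map_mul, map_add, Complex.conj_conj]
    linear_combination (-(ζ * w (-1))) * hXYc
  have hv1 : u (-1 + L + 1) = v (-1 + L + 1) := by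
    have e1 := (hblock1 L le_rfl).2
    rw [show (-1 : ℤ) + 1 + L = -1 + L + 1 by ring] at e1
    rw [e1, show (-1 : ℤ) + L + 1 = 0 + L by ring, hwL]
    simp only [hv]
    rw [show (0 : ℤ) + L - L = 0 by ring, hX1]
    simp only [map_mul, map_add, Complex.conj_conj]
    linear_combination (-(ζ * w 0)) * hXYc
  have hblock2 : ∀ j : ℕ, j ≤ L → u (-1 + L + j) = v (-1 + L + j) ∧
      u (-1 + L + 1 + j) = v (-1 + L + 1 + j) := by
    intro j hj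
    refine agree hu hvs (-1 + L) L (fun i hi => ?_) hv0 hv1 j hj
    exact h2 _ (by omega) (by omega)
  -- the monodromy
  have hend0 : u (-1 + M) = ζ * (conj X * (ζ₁ * (X * w (-1) + Y * conj (w (-1)))) +
      -(Y * conj (ζ₁ * (X * w (-1) + Y * conj (w (-1)))))) := by
    have := (hblock2 L le_rfl).1
    rw [show (-1 : ℤ) + M = -1 + L + L by rw [hML]; push_cast; ring, this]
    simp only [hv]
    rw [show (-1 : ℤ) + L + L - L = -1 + L by ring, hwL₁, hX0]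
  have hend1 : u (0 + M) = ζ * (conj X * (ζ₁ * (X * w 0 + Y * conj (w 0))) +
      -(Y * conj (ζ₁ * (X * w 0 + Y * conj (w 0))))) := by
    have := (hblock2 L le_rfl).2
    rw [show (0 : ℤ) + M = -1 + L + 1 + L by rw [hML]; push_cast; ring, this]
    simp only [hv]
    rw [show (-1 : ℤ) + L + 1 + L - L = 0 + L by ring, hwL₁, hX1]
  obtain ⟨p, hp⟩ : ∃ p : ℂ, p = ζ * ((X * conj X) * ζ₁ - (Y * conj Y) * conj ζ₁) := ⟨_, rfl⟩
  obtain ⟨q, hq⟩ : ∃ q : ℂ, q = conj (ζ * (conj X * Y * (ζ₁ - conj ζ₁))) := ⟨_, rfl⟩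
  have hqn : ‖q‖ ≤ 5 * ξ := by
    rw [hq, RCLike.norm_conj, norm_mul, hζn, one_mul, norm_mul, norm_mul, RCLike.norm_conj]
    have h3 : ‖ζ₁ - conj ζ₁‖ ≤ 2 := by
      refine (norm_sub_le _ _).trans ?_
      rw [RCLike.norm_conj, hζ₁n]; norm_num
    have h4 : 0 ≤ ‖X‖ * ‖Y‖ := by positivity
    nlinarith
  have hpd : ‖ζ * ζ₁ - p‖ ≤ 5 * ξ := by
    have e : ζ * ζ₁ - p = ζ * ((Y * conj Y) * (conj ζ₁ - ζ₁)) := by
      rw [hp]
      linear_combination (-(ζ * ζ₁)) * hXYc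
    rw [e, norm_mul, hζn, one_mul, norm_mul, norm_mul, RCLike.norm_conj]
    have h3 : ‖conj ζ₁ - ζ₁‖ ≤ 2 := by
      refine (norm_sub_le _ _).trans ?_
      rw [RCLike.norm_conj, hζ₁n]; norm_num
    have h4 : 0 ≤ ‖Y‖ * ‖Y‖ := by positivity
    nlinarith
  have hbig' : ρ' ≤ |(ζ * ζ₁).im| := by rw [hζ, hζ₁, ← mul_pow]; exact hbig
  have hpim : ρ' - 5 * ξ ≤ |p.im| := by
    have a1 : |(ζ * ζ₁).im| - |p.im| ≤ |(ζ * ζ₁).im - p.im| := abs_sub_abs_le_abs_sub _ _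
    have a2 : |(ζ * ζ₁).im - p.im| ≤ ‖ζ * ζ₁ - p‖ := by
      rw [← Complex.sub_im]; exact Complex.abs_im_le_norm _
    linarith
  obtain ⟨z', X', Y', e1, e2, e3, e4, e5, e6, e7, e8, e9⟩ := mono_bloch hu M hU' (-1)
    (by rw [show (-1 : ℤ) + 1 = 0 by ring, hu0, hu1]
        have := hw.wron (-1)
        rwa [show (-1 : ℤ) + 1 = 0 by ring] at this) p q
    (by rw [hend0, hu0, hp, hq]; simp only [map_mul, map_add, map_sub, Complex.conj_conj]; ring)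
    (by rw [show (-1 : ℤ) + 1 = 0 by ring, hend1, hu1, hp, hq]
        simp only [map_mul, map_add, map_sub, Complex.conj_conj]; ring)
    (by linarith [norm_nonneg q])
  -- the bound on the coefficients
  obtain ⟨η, hη⟩ : ∃ η : ℝ, η = ξ / ρ' := ⟨_, rfl⟩
  have hξη : ξ = η * ρ' := by rw [hη]; field_simp
  have hη0 : 0 ≤ η := by rw [hη]; positivity
  have hη1 : η ≤ 1 / 100 := by
    rw [hη, div_le_iff₀ hρ']; linarith
  have hξη' : ξ ≤ η := by rw [hξη]; nlinarith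
  have hS1 : 1 ≤ (‖X'‖ + ‖Y'‖) ^ 2 := by
    rw [← e5]
    nlinarith [norm_nonneg X', norm_nonneg Y', mul_nonneg (norm_nonneg X') (norm_nonneg Y'),
      sq_nonneg ‖Y'‖]
  have hS : (‖X'‖ + ‖Y'‖) ^ 2 ≤ 1 + 20 * η := by
    set S := (‖X'‖ + ‖Y'‖) ^ 2 with hSd
    have a1 : (S - 1) * (|p.im| - ‖q‖) ≤ 2 * ‖q‖ := by nlinarith
    have a2 : (9 / 10) * ρ' ≤ |p.im| - ‖q‖ := by linarith
    have a3 : (S - 1) * ((9 / 10) * ρ') ≤ (S - 1) * (|p.im| - ‖q‖) :=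
      mul_le_mul_of_nonneg_left a2 (by linarith)
    have a4 : (S - 1) * ((9 / 10) * ρ') ≤ 10 * (η * ρ') := by
      rw [← hξη]; linarith
    have a5 : (S - 1) * (9 / 10) ≤ 10 * η := by
      have : (S - 1) * (9 / 10) * ρ' ≤ 10 * η * ρ' := by nlinarith
      exact le_of_mul_le_mul_right this hρ'
    linarith
  refine ⟨z', fun n => X' * u n + Y' * conj (u n), ⟨e7, e8, e1, e9, ?_⟩, ?_⟩
  · have hMpos : 0 < M := by omega
    apply bd_period hMpos e1 e8 (-1)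
    intro j hj
    have hub : ‖u (-1 + j)‖ ^ 2 ≤ B * ((1 + 5 * ξ) * (1 + 32 * ξ)) := by
      have hone : 1 ≤ (1 + 5 * ξ) * (1 + 32 * ξ) := by nlinarith
      rcases le_or_gt j L with hjL | hjL
      · rw [(hblock1 j hjL).1]
        refine (hw.bd _).trans ?_
        exact le_mul_of_one_le_right hB0 hone
      · obtain ⟨i, rfl⟩ : ∃ i : ℕ, j = L + i := ⟨j - L, by omega⟩
        have e : (-1 : ℤ) + ((L + i : ℕ) : ℤ) = -1 + L + i := by push_cast; ring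
        rw [e, (hblock2 i (by omega)).1]
        simp only [hv]
        have a1 : ‖ζ * (conj X * w₁ (-1 + L + i - L) + -(Y * conj (w₁ (-1 + L + i - L))))‖ ≤
            (‖X‖ + ‖Y‖) * ‖w₁ (-1 + L + i - L)‖ := by
          rw [norm_mul, hζn, one_mul]
          refine (norm_add_le _ _).trans ?_
          rw [norm_neg, norm_mul, norm_mul, RCLike.norm_conj, RCLike.norm_conj, ← add_mul]
        have a2 := hw₁.bd (-1 + L + i - L)
        calc _ ≤ ((‖X‖ + ‖Y‖) * ‖w₁ (-1 + L + i - L)‖) ^ 2 := by gcongr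
          _ = (‖X‖ + ‖Y‖) ^ 2 * ‖w₁ (-1 + L + i - L)‖ ^ 2 := by ring
          _ ≤ (1 + 5 * ξ) * (B * (1 + 32 * ξ)) := by gcongr
          _ = _ := by ring
    have h2 : ‖X' * u (-1 + j) + Y' * conj (u (-1 + j))‖ ≤ (‖X'‖ + ‖Y'‖) * ‖u (-1 + j)‖ := by
      refine (norm_add_le _ _).trans ?_
      rw [norm_mul, norm_mul, RCLike.norm_conj, ← add_mul]
    have h3 : (1 + 20 * η) * ((1 + 5 * ξ) * (1 + 32 * ξ)) ≤ 1 + 70 * η := by
      have b1 : (1 + 5 * ξ) * (1 + 32 * ξ) ≤ (1 + 5 * η) * (1 + 32 * η) := by gcongr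
      have b2 : (1 + 5 * η) * (1 + 32 * η) ≤ 1 + 40 * η := by nlinarith
      have b3 : (1 + 20 * η) * (1 + 40 * η) ≤ 1 + 70 * η := by nlinarith
      calc _ ≤ (1 + 20 * η) * (1 + 40 * η) := by
            apply mul_le_mul_of_nonneg_left (b1.trans b2); positivity
        _ ≤ _ := b3
    calc ‖X' * u (-1 + j) + Y' * conj (u (-1 + j))‖ ^ 2
        ≤ ((‖X'‖ + ‖Y'‖) * ‖u (-1 + j)‖) ^ 2 := by gcongr
      _ = (‖X'‖ + ‖Y'‖) ^ 2 * ‖u (-1 + j)‖ ^ 2 := by ring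
      _ ≤ (1 + 20 * η) * (B * ((1 + 5 * ξ) * (1 + 32 * ξ))) := by gcongr
      _ = B * ((1 + 20 * η) * ((1 + 5 * ξ) * (1 + 32 * ξ))) := by ring
      _ ≤ B * (1 + 70 * η) := by gcongr
      _ = _ := by rw [hη]
  · refine le_trans ?_ e4
    linarith

end Pool.Agent.W810.LP
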