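import Pool.Agent.W810.LP.Tunnel
import Pool.Agent.W810.LP.Box

set_option autoImplicit false

namespace Pool.Agent.W810.LP

open Filter Topology Pool.Agent.Helper434.PSCplx Pool.Agent.H695R3.ST

/-- splitting a sum over `ℤ` in windows of length `M` -/
theorem hasSum_windows (M : ℕ) (hM : 0 < M) (a : ℤ) {f : ℤ → ℝ} {s : ℝ} (hf : HasSum f s) :
    HasSum (fun j : ℤ => ∑ i ∈ Finset.range M, f (a + M * j + i)) s := by
  have : NeZero M := ⟨hM.ne'⟩
  have h1 : HasSum (fun n : ℤ => f (a + n)) s := (Equiv.addLeft a).hasSum_iff.2 hf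
  have h2 : HasSum (fun p : ℤ × Fin M => f (a + (Int.divModEquiv M).symm p)) s :=
    (Int.divModEquiv M).symm.hasSum_iff.2 h1
  have h3 := h2.prod_fiberwise (g := fun j : ℤ => ∑ i : Fin M, f (a + (Int.divModEquiv M).symm (j, i)))
    (fun j => hasSum_fintype _)
  have h4 : (fun j : ℤ => ∑ i ∈ Finset.range M, f (a + M * j + i)) =
      fun j : ℤ => ∑ i : Fin M, f (a + (Int.divModEquiv M).symm (j, i)) := by
    funext j
    rw [← Fin.sum_univ_eq_sum_range (fun i => f (a + M * j + i)) M]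
    refine Finset.sum_congr rfl fun i _ => ?_
    congr 1
    show a + M * j + ((i : ℕ) : ℤ) = a + (j * M + ((i : ℕ) : ℤ))
    ring
  rw [h4]
  exact h3

lemma per_int {V : ℤ → ℝ} {M : ℕ} (hV : ∀ n : ℤ, V (n + M) = V n) (n j : ℤ) :
    V (n + M * j) = V n := by
  induction j using Int.induction_on with
  | zero => simp
  | succ i ih => rw [show n + M * ((i : ℤ) + 1) = (n + M * i) + M by ring, hV, ih]
  | pred i ih =>
    rw [← ih, ← hV (n + M * (-(i : ℤ) - 1))]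
    congr 1
    ring

/-- an approximate eigenvector which is small at the cuts gives an approximate eigenvector of a
box -/
theorem window {V : ℤ → ℝ} {H : L2 →L[ℂ] L2} (hH : IsSchr V H) (M : ℕ) (hM : 2 ≤ M)
    (hV : ∀ n : ℤ, V (n + M) = V n) (a : ℤ) (C : Finset ℝ)
    (hC : ∀ (E κ : ℝ) (ψ : ℤ → ℂ), 0 ≤ κ → 0 < ∑ i ∈ Finset.range M, ‖ψ (a + i)‖ ^ 2 →
      2 * ∑ i ∈ Finset.range M,
          ‖ψ (a + i + 1) + ψ (a + i - 1) + ((V (a + i) - E : ℝ) : ℂ) * ψ (a + i)‖ ^ 2 +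
        2 * (‖ψ (a - 1)‖ ^ 2 + ‖ψ (a + M)‖ ^ 2) ≤ κ ^ 2 * ∑ i ∈ Finset.range M, ‖ψ (a + i)‖ ^ 2 →
      ∃ c ∈ C, |c - E| ≤ κ)
    (E κ R : ℝ) (hκ : 0 ≤ κ) (hR : 0 < R) (ψ φ : L2)
    (h0 : ∀ j : ℤ, R * ‖ψ (a + M * j)‖ ≤ ‖φ (a + M * j)‖)
    (h1 : ∀ j : ℤ, R * ‖ψ (a - 1 + M * j)‖ ≤ ‖φ (a - 1 + M * j)‖)
    (hlt : 2 * (R ^ 2 * ‖H ψ - (E : ℂ) • ψ‖ ^ 2) + 4 * ‖φ‖ ^ 2 < κ ^ 2 * (R ^ 2 * ‖ψ‖ ^ 2)) :
    ∃ c ∈ C, |c - E| ≤ κ := by
  by_contra hcon
  set g : L2 := H ψ - (E : ℂ) • ψ with hg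
  have hval := fun n => sub_apply' hH E ψ n
  rw [← hg] at hval
  set S : ℤ → ℝ := fun j => ∑ i ∈ Finset.range M, ‖ψ (a + M * j + i)‖ ^ 2 with hS
  set G : ℤ → ℝ := fun j => ∑ i ∈ Finset.range M, ‖g (a + M * j + i)‖ ^ 2 with hG
  have key : ∀ j, κ ^ 2 * S j ≤ 2 * G j + 2 * (‖ψ (a - 1 + M * j)‖ ^ 2 + ‖ψ (a + M * (j + 1))‖ ^ 2) := by
    intro j
    have hS0 : 0 ≤ S j := Finset.sum_nonneg fun i _ => sq_nonneg _
    rcases hS0.eq_or_lt with h | h
    · rw [← h, mul_zero]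
      have : 0 ≤ G j := Finset.sum_nonneg fun i _ => sq_nonneg _
      positivity
    · by_contra hc
      push Not at hc
      apply hcon
      refine hC E κ (fun n => ψ (n + M * j)) hκ ?_ ?_
      · have e : ∀ i : ℕ, a + (i : ℤ) + M * j = a + M * j + i := fun i => by ring
        simp only [e]
        exact h
      · have e : ∀ i : ℕ, a + (i : ℤ) + M * j = a + M * j + i := fun i => by ring
        have e1 : ∀ i : ℕ, a + (i : ℤ) + 1 + M * j = a + M * j + i + 1 := fun i => by ring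
        have e2 : ∀ i : ℕ, a + (i : ℤ) - 1 + M * j = a + M * j + i - 1 := fun i => by ring
        have e3 : a + (M : ℤ) * j + M = a + M * (j + 1) := by ring
        simp only [e, e1, e2, e3]
        have e4 : ∀ i : ℕ, V (a + i) = V (a + M * j + i) := by
          intro i
          rw [← per_int hV (a + i) j]
          congr 1
          ring
        simp only [e4, ← hval]
        exact hc.le
  have hs1 := (hasSum_windows M (by omega) a (hasSum_sq ψ)).mul_left (κ ^ 2)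
  have hs2 := (hasSum_windows M (by omega) a (hasSum_sq g)).mul_left 2
  have hM0 : (M : ℤ) ≠ 0 := by omega
  have hinj0 : Function.Injective (fun j : ℤ => a + M * (j + 1)) := by
    intro x y hxy
    simp only at hxy
    have : (M : ℤ) * (x + 1) = M * (y + 1) := by linarith
    have := mul_left_cancel₀ hM0 this
    omega
  have hinj1 : Function.Injective (fun j : ℤ => a - 1 + M * j) := by
    intro x y hxy
    simp only at hxy
    have : (M : ℤ) * x = M * y := by linarith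
    exact mul_left_cancel₀ hM0 this
  have hsum0 : Summable (fun j : ℤ => ‖ψ (a + M * (j + 1))‖ ^ 2) :=
    (hasSum_sq ψ).summable.comp_injective hinj0
  have hsum1 : Summable (fun j : ℤ => ‖ψ (a - 1 + M * j)‖ ^ 2) :=
    (hasSum_sq ψ).summable.comp_injective hinj1
  have hb0 : R ^ 2 * ∑' j : ℤ, ‖ψ (a + M * (j + 1))‖ ^ 2 ≤ ‖φ‖ ^ 2 := by
    refine hasSum_le_inj (fun j : ℤ => a + M * (j + 1)) hinj0 (fun c _ => sq_nonneg ‖φ c‖)
      (fun j => ?_) (hsum0.hasSum.mul_left (R ^ 2)) (hasSum_sq φ)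
    rw [← mul_pow]
    exact pow_le_pow_left₀ (by positivity) (h0 (j + 1)) 2
  have hb1 : R ^ 2 * ∑' j : ℤ, ‖ψ (a - 1 + M * j)‖ ^ 2 ≤ ‖φ‖ ^ 2 := by
    refine hasSum_le_inj (fun j : ℤ => a - 1 + M * j) hinj1 (fun c _ => sq_nonneg ‖φ c‖)
      (fun j => ?_) (hsum1.hasSum.mul_left (R ^ 2)) (hasSum_sq φ)
    rw [← mul_pow]
    exact pow_le_pow_left₀ (by positivity) (h1 j) 2
  have hfin := hasSum_le key hs1 (hs2.add ((hsum1.hasSum.add hsum0.hasSum).mul_left 2))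
  have hR2 : 0 < R ^ 2 := by positivity
  nlinarith [mul_le_mul_of_nonneg_left hfin hR2.le]

end Pool.Agent.W810.LP
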